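import Mathlib
import Pool.Agent.Helper876.CutBody

set_option autoImplicit false

namespace Pool.Agent.H617R3

open Matrix Finset MeasureTheory
open scoped Pointwise ENNReal
open Pool.Agent.Helper876 (cast cast_apply cast_sub cast_add)

variable {d : ℕ}

/-- extension of a vector by a zero coordinate -/
def ex (x : Fin d → ℝ) : Option (Fin d) → ℝ := fun o => o.elim 0 x

@[simp] lemma ex_some (x : Fin d → ℝ) (i : Fin d) : ex x (some i) = x i := rfl
@[simp] lemma ex_none (x : Fin d → ℝ) : ex x none = 0 := rfl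

lemma ex_add (x y : Fin d → ℝ) (o : Option (Fin d)) : ex (x + y) o = ex x o + ex y o := by
  cases o <;> simp

lemma ex_sub (x y : Fin d → ℝ) (o : Option (Fin d)) : ex (x - y) o = ex x o - ex y o := by
  cases o <;> simp

lemma ex_smul (c : ℝ) (x : Fin d → ℝ) (o : Option (Fin d)) : ex (c • x) o = c * ex x o := by
  cases o <;> simp

/-- the linear form attached to a set of coordinates -/
def phi (S : Finset (Option (Fin d))) (x : Fin d → ℝ) : ℝ :=
  (d + 1) * ∑ a ∈ S, ex x a - S.card * ∑ a, ex x a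

/-- the value of `phi S` at the indicator of `S` -/
def cc (S : Finset (Option (Fin d))) : ℝ := S.card * ((d : ℝ) + 1 - S.card)

/-- nontrivial sets -/
def Pr (S : Finset (Option (Fin d))) : Prop := S.Nonempty ∧ Sᶜ.Nonempty

lemma phi_add (S : Finset (Option (Fin d))) (x y : Fin d → ℝ) :
    phi S (x + y) = phi S x + phi S y := by
  unfold phi
  simp only [ex_add, Finset.sum_add_distrib]
  ring

lemma phi_sub (S : Finset (Option (Fin d))) (x y : Fin d → ℝ) :
    phi S (x - y) = phi S x - phi S y := by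
  unfold phi
  simp only [ex_sub, Finset.sum_sub_distrib]
  ring

lemma phi_smul (S : Finset (Option (Fin d))) (c : ℝ) (x : Fin d → ℝ) :
    phi S (c • x) = c * phi S x := by
  unfold phi
  simp only [ex_smul, ← Finset.mul_sum]
  ring

lemma phi_neg (S : Finset (Option (Fin d))) (x : Fin d → ℝ) :
    phi S (-x) = - phi S x := by
  have : -x = (-1 : ℝ) • x := by simp
  rw [this, phi_smul]; ring

@[simp] lemma phi_zero (S : Finset (Option (Fin d))) : phi S (0 : Fin d → ℝ) = 0 := by
  have : (0 : Fin d → ℝ) = (0 : ℝ) • (0 : Fin d → ℝ) := by simp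
  rw [this, phi_smul]; ring

lemma card_compl_real (S : Finset (Option (Fin d))) :
    ((Sᶜ.card : ℕ) : ℝ) = (d : ℝ) + 1 - S.card := by
  rw [Finset.card_compl, Nat.cast_sub (Finset.card_le_univ S), Fintype.card_option,
    Fintype.card_fin]
  push_cast; ring

lemma phi_compl (S : Finset (Option (Fin d))) (x : Fin d → ℝ) : phi Sᶜ x = - phi S x := by
  unfold phi
  rw [card_compl_real]
  have h := Finset.sum_add_sum_compl S (ex x)
  have h2 : ∑ a ∈ Sᶜ, ex x a = ∑ a, ex x a - ∑ a ∈ S, ex x a := by linarith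
  rw [h2]; ring

lemma cc_compl (S : Finset (Option (Fin d))) : cc Sᶜ = cc S := by
  unfold cc
  rw [card_compl_real]; ring

lemma Pr.compl {S : Finset (Option (Fin d))} (h : Pr S) : Pr Sᶜ := ⟨h.2, by rw [compl_compl]; exact h.1⟩

lemma Pr.card_pos {S : Finset (Option (Fin d))} (h : Pr S) : (1 : ℝ) ≤ S.card := by
  have := Finset.card_pos.2 h.1
  exact_mod_cast this

lemma Pr.card_le {S : Finset (Option (Fin d))} (h : Pr S) : (S.card : ℝ) ≤ d := by
  have := Pr.card_pos h.compl
  rw [card_compl_real] at this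
  linarith

lemma Pr.one_le_cc {S : Finset (Option (Fin d))} (h : Pr S) : 1 ≤ cc S := by
  unfold cc
  have h1 := h.card_pos
  have h2 := h.card_le
  nlinarith

lemma cc_le (S : Finset (Option (Fin d))) : cc S ≤ ((d : ℝ) + 1) ^ 2 := by
  unfold cc
  have h1 : (0:ℝ) ≤ S.card := by positivity
  have h2 : (0:ℝ) ≤ d := by positivity
  nlinarith [sq_nonneg ((S.card : ℝ) - (d + 1))]

lemma cc_nonneg (S : Finset (Option (Fin d))) : 0 ≤ cc S := by
  unfold cc
  have h1 : (0:ℝ) ≤ S.card := by positivity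
  have h2 : (0:ℝ) ≤ (Sᶜ.card : ℕ) := by positivity
  rw [card_compl_real] at h2
  positivity

lemma phi_eq_sum (S : Finset (Option (Fin d))) (x : Fin d → ℝ) :
    phi S x = ∑ a ∈ S, ∑ b ∈ Sᶜ, (ex x a - ex x b) := by
  simp only [Finset.sum_sub_distrib, Finset.sum_const, nsmul_eq_mul]
  rw [← Finset.mul_sum, card_compl_real]
  unfold phi
  have h := Finset.sum_add_sum_compl S (ex x)
  rw [← h]
  ring

lemma abs_ex_le (x : Fin d → ℝ) (o : Option (Fin d)) : |ex x o| ≤ ‖x‖ := by
  cases o with
  | none => simp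
  | some i => exact norm_le_pi_norm x i

lemma phi_le_of {S : Finset (Option (Fin d))} {x : Fin d → ℝ} {c : ℝ}
    (h : ∀ a ∈ S, ∀ b ∈ Sᶜ, ex x a - ex x b ≤ c) : phi S x ≤ c * cc S := by
  rw [phi_eq_sum]
  calc ∑ a ∈ S, ∑ b ∈ Sᶜ, (ex x a - ex x b) ≤ ∑ _a ∈ S, ∑ _b ∈ Sᶜ, c :=
        Finset.sum_le_sum fun a ha => Finset.sum_le_sum fun b hb => h a ha b hb
    _ = c * cc S := by
        simp only [Finset.sum_const, nsmul_eq_mul]
        rw [card_compl_real]; unfold cc; ring

lemma phi_le_norm (S : Finset (Option (Fin d))) (x : Fin d → ℝ) : phi S x ≤ 2 * ‖x‖ * cc S := by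
  apply phi_le_of
  intro a _ b _
  have h1 := (abs_le.1 (abs_ex_le x a)).2
  have h2 := (abs_le.1 (abs_ex_le x b)).1
  linarith

lemma phi_le_norm' (S : Finset (Option (Fin d))) (x : Fin d → ℝ) :
    phi S x ≤ 2 * ‖x‖ * ((d : ℝ) + 1) ^ 2 := by
  refine (phi_le_norm S x).trans ?_
  have := cc_le S
  gcongr

lemma phi_union {S T : Finset (Option (Fin d))} (h : Disjoint S T) (x : Fin d → ℝ) :
    phi (S ∪ T) x = phi S x + phi T x := by
  unfold phi
  rw [Finset.sum_union h, Finset.card_union_of_disjoint h]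
  push_cast; ring

lemma sum_phi_singleton (S : Finset (Option (Fin d))) (x : Fin d → ℝ) :
    ∑ a ∈ S, phi {a} x = phi S x := by
  unfold phi
  simp only [Finset.sum_singleton, Finset.card_singleton, Finset.sum_sub_distrib,
    ← Finset.mul_sum, Finset.sum_const, nsmul_eq_mul]
  push_cast; ring

lemma coord_eq (x : Fin d → ℝ) (i : Fin d) :
    ((d : ℝ) + 1) * x i = phi {some i} x - phi {none} x := by
  unfold phi
  simp

/-- the indicator of `S`, normalised -/
def ind (S : Finset (Option (Fin d))) : Fin d → ℤ :=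
  fun i => (if some i ∈ S then 1 else 0) - (if none ∈ S then 1 else 0)

lemma ex_ind (S : Finset (Option (Fin d))) (a : Option (Fin d)) :
    ex (cast (ind S)) a = (if a ∈ S then 1 else 0) - (if none ∈ S then 1 else 0) := by
  cases a with
  | none => simp
  | some i => simp [ind]

lemma phi_ind (T S : Finset (Option (Fin d))) :
    phi T (cast (ind S)) = ((d : ℝ) + 1) * (T ∩ S).card - T.card * S.card := by
  unfold phi
  simp only [ex_ind, Finset.sum_sub_distrib, Finset.sum_const, nsmul_eq_mul, Finset.card_univ,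
    Fintype.card_option, Fintype.card_fin]
  rw [Finset.sum_ite_mem, Finset.sum_ite_mem]
  simp only [Finset.sum_const, nsmul_eq_mul, Finset.univ_inter]
  push_cast; ring

lemma phi_ind_self (S : Finset (Option (Fin d))) : phi S (cast (ind S)) = cc S := by
  rw [phi_ind, Finset.inter_self]; unfold cc; ring

/-- the quadratic form of the dual root lattice -/
def q (x : Fin d → ℝ) : ℝ := ((d : ℝ) + 1) * ∑ i, x i ^ 2 - (∑ i, x i) ^ 2

lemma q_eq_ex (x : Fin d → ℝ) : q x = ((d : ℝ) + 1) * ∑ a, ex x a ^ 2 - (∑ a, ex x a) ^ 2 := by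
  unfold q
  rw [Fintype.sum_option, Fintype.sum_option]
  simp

lemma sum_sq_le_q (x : Fin d → ℝ) : ∑ i, x i ^ 2 ≤ q x := by
  unfold q
  have := sq_sum_le_card_mul_sum_sq (s := (Finset.univ : Finset (Fin d))) (f := x)
  rw [Finset.card_univ, Fintype.card_fin] at this
  linarith

lemma sq_le_q (x : Fin d → ℝ) (i : Fin d) : x i ^ 2 ≤ q x :=
  (Finset.single_le_sum (f := fun i => x i ^ 2) (fun i _ => sq_nonneg _)
    (Finset.mem_univ i)).trans (sum_sq_le_q x)

lemma q_nonneg (x : Fin d → ℝ) : 0 ≤ q x :=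
  le_trans (Finset.sum_nonneg fun i _ => sq_nonneg _) (sum_sq_le_q x)

lemma q_sub_ind (S : Finset (Option (Fin d))) (x : Fin d → ℝ) :
    q (x - cast (ind S)) = q x - 2 * phi S x + cc S := by
  classical
  rw [q_eq_ex, q_eq_ex]
  unfold phi cc
  set γ : ℝ := if none ∈ S then 1 else 0 with hγ
  have h1 : ∀ a, ex (x - cast (ind S)) a = ex x a - (if a ∈ S then 1 else 0) + γ := by
    intro a
    rw [ex_sub, ex_ind]; ring
  simp only [h1]
  have h2 : ∀ a, (ex x a - (if a ∈ S then (1:ℝ) else 0) + γ) ^ 2 =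
      ex x a ^ 2 + 2 * γ * ex x a + γ ^ 2 + (if a ∈ S then (1 - 2 * γ - 2 * ex x a) else 0) := by
    intro a
    split_ifs <;> ring
  simp only [h2, Finset.sum_add_distrib, Finset.sum_sub_distrib, Finset.sum_const, nsmul_eq_mul,
    Finset.card_univ, Fintype.card_option, Fintype.card_fin, ← Finset.mul_sum]
  rw [Finset.sum_ite_mem, Finset.sum_ite_mem]
  simp only [Finset.univ_inter, Finset.sum_sub_distrib, Finset.sum_const, nsmul_eq_mul,
    ← Finset.mul_sum]
  push_cast
  ring

/-- the cell of the dual root lattice, scaled by `r` -/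
def Cell (d : ℕ) (r : ℝ) : Set (Fin d → ℝ) := {x | ∀ S, Pr S → 2 * phi S x ≤ r * cc S}

lemma exists_sub_mem_Cell (x : Fin d → ℝ) : ∃ z : Fin d → ℤ, x - cast z ∈ Cell d 1 := by
  classical
  let f : (Fin d → ℤ) → ℝ := fun z => q (x - cast z)
  have hfin : {z : Fin d → ℤ | f z ≤ f 0}.Finite := by
    have hsub : {z : Fin d → ℤ | f z ≤ f 0} ⊆
        Set.Icc (fun i => ⌊x i - (f 0 + 1)⌋) (fun i => ⌈x i + (f 0 + 1)⌉) := by
      intro z hz
      have hz' : f z ≤ f 0 := hz
      have h0 : 0 ≤ f 0 := q_nonneg _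
      have hi : ∀ i, |x i - z i| ≤ f 0 + 1 := by
        intro i
        have h1 := sq_le_q (x - cast z) i
        simp only [Pi.sub_apply, cast_apply] at h1
        have h2 : (x i - z i) ^ 2 ≤ f 0 := h1.trans hz'
        rw [← sq_abs] at h2
        by_contra h
        push Not at h
        nlinarith [abs_nonneg (x i - z i)]
      rw [Set.mem_Icc]
      constructor
      · intro i
        have := (abs_le.1 (hi i)).2
        apply Int.floor_le_iff.2
        linarith
      · intro i
        have := (abs_le.1 (hi i)).1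
        apply Int.le_ceil_iff.2
        linarith
    exact (Set.finite_Icc _ _).subset hsub
  obtain ⟨z, hz, hmin⟩ := Set.exists_min_image _ f hfin ⟨0, show f 0 ≤ f 0 from le_rfl⟩
  have hmin' : ∀ w, f z ≤ f w := by
    intro w
    by_cases hw : f w ≤ f 0
    · exact hmin w hw
    · push Not at hw
      exact (hmin 0 (show f 0 ≤ f 0 from le_rfl)).trans hw.le
  refine ⟨z, ?_⟩
  intro S _
  have h1 := hmin' (z + ind S)
  simp only [f] at h1
  rw [cast_add, ← sub_sub, q_sub_ind] at h1
  linarith

lemma phi_continuous (S : Finset (Option (Fin d))) : Continuous (phi S) := by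
  unfold phi
  have h : ∀ a : Option (Fin d), Continuous fun x : Fin d → ℝ => ex x a := by
    intro a
    cases a with
    | none => simp only [ex_none]; fun_prop
    | some i => simp only [ex_some]; fun_prop
  exact (continuous_const.mul (continuous_finsetSum _ fun a _ => h a)).sub
    (continuous_const.mul (continuous_finsetSum _ fun a _ => h a))

end Pool.Agent.H617R3
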