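import Mathlib
import Pool.Agent.H617R3.Phi

set_option autoImplicit false

namespace Pool.Agent.H617R3

open Matrix Finset MeasureTheory Module
open scoped Pointwise ENNReal
open Pool.Agent.Helper876 (cast cast_apply cast_sub cast_add blichfeldt one_le_volume)

variable {d : ℕ}

lemma Cell_closed (r : ℝ) : IsClosed (Cell d r) := by
  have : Cell d r = ⋂ S, ⋂ (_ : Pr S), {x | 2 * phi S x ≤ r * cc S} := by
    ext x; simp [Cell]
  rw [this]
  refine isClosed_iInter fun S => isClosed_iInter fun _ => ?_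
  exact isClosed_le (continuous_const.mul (phi_continuous S)) continuous_const

lemma Cell_measurable (r : ℝ) : MeasurableSet (Cell d r) := (Cell_closed r).measurableSet

lemma smul_mem_Cell {r c : ℝ} (hc : 0 ≤ c) {x : Fin d → ℝ} (hx : x ∈ Cell d r) :
    c • x ∈ Cell d (c * r) := by
  intro S hS
  rw [phi_smul]
  have := mul_le_mul_of_nonneg_left (hx S hS) hc
  linarith

lemma Cell_smul {r : ℝ} (hr : 0 < r) : Cell d r = r • Cell d 1 := by
  ext x
  rw [Set.mem_smul_set_iff_inv_smul_mem₀ hr.ne']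
  constructor
  · intro hx
    have := smul_mem_Cell (inv_nonneg.2 hr.le) hx
    rwa [inv_mul_cancel₀ hr.ne'] at this
  · intro hx
    have := smul_mem_Cell hr.le hx
    rwa [smul_smul, mul_inv_cancel₀ hr.ne', one_smul, mul_one] at this

lemma one_le_volume_Cell (d : ℕ) : 1 ≤ volume (Cell d 1) :=
  one_le_volume fun x => exists_sub_mem_Cell x

lemma volume_Cell_ge {r : ℝ} (hr : 0 < r) : ENNReal.ofReal (r ^ d) ≤ volume (Cell d r) := by
  rw [Cell_smul hr, Measure.addHaar_smul]
  simp only [finrank_fintype_fun_eq_card, Fintype.card_fin, abs_pow, abs_of_pos hr]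
  calc ENNReal.ofReal (r ^ d) = ENNReal.ofReal (r ^ d) * 1 := (mul_one _).symm
    _ ≤ _ := by gcongr; exact one_le_volume_Cell d

/-- the determinant of an admissible lattice -/
lemma det_ge {B : Matrix (Fin d) (Fin d) ℝ} (hB : B.det ≠ 0) {r : ℝ} (hr : 0 < r)
    (h1 : ∀ z : Fin d → ℤ, z ≠ 0 → ∃ S, Pr S ∧ r * cc S < phi S (B *ᵥ cast z)) :
    r ^ d ≤ |B.det| := by
  by_contra hlt
  push Not at hlt
  have h2 : ENNReal.ofReal |B.det| < volume (Cell d r) := by
    refine lt_of_lt_of_le ?_ (volume_Cell_ge hr)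
    exact (ENNReal.ofReal_lt_ofReal_iff (by positivity)).2 hlt
  obtain ⟨z, hz, x, hx, y, hy, hxy⟩ := blichfeldt hB (Cell_measurable r) h2
  obtain ⟨S, hS, hab⟩ := h1 z hz
  rw [← hxy, phi_sub] at hab
  have h3 := hx S hS
  have h4 := hy Sᶜ hS.compl
  rw [phi_compl, cc_compl] at h4
  linarith

/-- Approximate covering. -/
lemma approx_cover {B : Matrix (Fin d) (Fin d) ℝ} (hB : B.det ≠ 0) {r η : ℝ} (hr : 0 < r)
    (hη : 0 < η) (hηr : 4 * η ≤ r)
    (h1 : ∀ z : Fin d → ℤ, z ≠ 0 → ∃ S, Pr S ∧ r * cc S < phi S (B *ᵥ cast z))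
    (hdet : |B.det| < r ^ d + (2 * η) ^ d) (x : Fin d → ℝ) :
    ∃ z : Fin d → ℤ, x - B *ᵥ cast z ∈ Cell d (r + 4 * η) := by
  by_contra hcon
  push Not at hcon
  -- adding a small vector to a member of `Cell`
  have hadd : ∀ u v : Fin d → ℝ, u ∈ Cell d r → ‖v‖ ≤ η → u + v ∈ Cell d (r + 4 * η) := by
    intro u v hu hv S hS
    rw [phi_add]
    have h3 := hu S hS
    have h4 := phi_le_norm S v
    have h5 : 2 * ‖v‖ * cc S ≤ 2 * η * cc S := by
      have := cc_nonneg S
      gcongr
    linarith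
  set S : Set (Fin d → ℝ) := Cell d r ∪ Metric.closedBall x η with hS
  have hSm : MeasurableSet S := (Cell_measurable r).union Metric.isClosed_closedBall.measurableSet
  have hdisj : Disjoint (Cell d r) (Metric.closedBall x η) := by
    rw [Set.disjoint_left]
    intro y hy hyx
    apply hcon 0
    have h0 : cast (0 : Fin d → ℤ) = 0 := by funext i; simp
    rw [h0, Matrix.mulVec_zero, sub_zero]
    have h4 : ‖x - y‖ ≤ η := by
      rw [Metric.mem_closedBall, dist_comm, dist_eq_norm] at hyx; exact hyx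
    have := hadd y (x - y) hy h4
    rwa [add_sub_cancel] at this
  have hvolb : volume (Metric.closedBall x η) = ENNReal.ofReal ((2 * η) ^ d) := by
    rw [Real.volume_pi_closedBall _ hη.le]; simp
  have hvol : ENNReal.ofReal |B.det| < volume S := by
    rw [hS, measure_union hdisj Metric.isClosed_closedBall.measurableSet, hvolb]
    refine lt_of_lt_of_le ?_ (add_le_add_left (volume_Cell_ge hr) _)
    rw [← ENNReal.ofReal_add (by positivity) (by positivity)]
    exact (ENNReal.ofReal_lt_ofReal_iff (by positivity)).2 hdet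
  obtain ⟨z, hz, u, hu, v, hv, huv⟩ := blichfeldt hB hSm hvol
  obtain ⟨T, hT, hab⟩ := h1 z hz
  rcases hu with hu | hu <;> rcases hv with hv | hv
  · rw [← huv, phi_sub] at hab
    have h3 := hu T hT
    have h4 := hv Tᶜ hT.compl
    rw [phi_compl, cc_compl] at h4
    linarith
  · apply hcon (-z)
    have h0 : cast (-z) = - cast z := by funext i; simp
    rw [h0, Matrix.mulVec_neg, ← huv]
    have h2 : x - -(u - v) = u + (x - v) := by abel
    rw [h2]
    apply hadd _ _ hu
    rw [Metric.mem_closedBall, dist_comm, dist_eq_norm] at hv; exact hv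
  · apply hcon z
    rw [← huv]
    have h2 : x - (u - v) = v + (x - u) := by abel
    rw [h2]
    apply hadd _ _ hv
    rw [Metric.mem_closedBall, dist_comm, dist_eq_norm] at hu; exact hu
  · have h3 := phi_le_norm T (u - v)
    have h4 : ‖u - v‖ ≤ 2 * η := by
      rw [Metric.mem_closedBall, dist_eq_norm] at hu hv
      calc ‖u - v‖ = ‖(u - x) - (v - x)‖ := by congr 1; abel
        _ ≤ ‖u - x‖ + ‖v - x‖ := norm_sub_le _ _
        _ ≤ 2 * η := by linarith
    rw [huv] at h3 h4
    have hc := cc_nonneg T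
    have h6 : 2 * ‖B *ᵥ cast z‖ * cc T ≤ 2 * (2 * η) * cc T := by gcongr
    have h7 : 4 * η * cc T ≤ r * cc T := by gcongr
    linarith

end Pool.Agent.H617R3
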