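import Mathlib
import Pool.Agent.H617R3.Vol

set_option autoImplicit false

namespace Pool.Agent.H617R3

open Matrix Finset MeasureTheory Module
open scoped Pointwise ENNReal
open Pool.Agent.Helper876 (cast cast_apply cast_sub cast_add)

variable {d : ℕ}

/-- the vector of a single coordinate -/
def e1 (o : Option (Fin d)) : Fin d → ℝ := cast (ind {o})

lemma phi_e1 (T : Finset (Option (Fin d))) (o : Option (Fin d)) :
    phi T (e1 o) = (if o ∈ T then (d : ℝ) + 1 else 0) - T.card := by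
  unfold e1
  rw [phi_ind]
  by_cases h : o ∈ T
  · rw [Finset.inter_singleton_of_mem h, if_pos h]; simp
  · rw [Finset.inter_singleton_of_notMem h, if_neg h]; simp

/-- directions -/
noncomputable def Y (o j : Option (Fin d)) : Fin d → ℝ :=
  (1 / (2 * ((d : ℝ) + 1))) • ((d : ℝ) • e1 j + e1 o)

lemma phi_Y {T : Finset (Option (Fin d))} {o j : Option (Fin d)} (ho : o ∉ T) :
    phi T (Y o j) = ((if j ∈ T then (d : ℝ) else 0) - T.card) / 2 := by
  unfold Y
  rw [phi_smul, phi_add, phi_smul, phi_e1, phi_e1, if_neg ho]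
  have : ((d : ℝ) + 1) ≠ 0 := by positivity
  by_cases h : j ∈ T
  · rw [if_pos h, if_pos h]; field_simp; ring
  · rw [if_neg h, if_neg h]; field_simp

lemma phi_Y_self {o j : Option (Fin d)} (h : j ≠ o) : phi {o} (Y o j) = 0 := by
  unfold Y
  rw [phi_smul, phi_add, phi_smul, phi_e1, phi_e1, if_neg (by simpa using h), if_pos (by simp)]
  simp

/-- test points -/
noncomputable def pt (s τ : ℝ) (o j : Option (Fin d)) : Fin d → ℝ :=
  (1 / 2 + s) • e1 o + τ • Y o j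

lemma phi_pt (T : Finset (Option (Fin d))) (s τ : ℝ) (o j : Option (Fin d)) :
    phi T (pt s τ o j) = (1 / 2 + s) * phi T (e1 o) + τ * phi T (Y o j) := by
  unfold pt
  rw [phi_add, phi_smul, phi_smul]

lemma phi_pt_self (s τ : ℝ) {o j : Option (Fin d)} (h : j ≠ o) :
    phi {o} (pt s τ o j) = (1 / 2 + s) * d := by
  rw [phi_pt, phi_Y_self h, phi_e1, if_pos (by simp)]
  simp

lemma cc_singleton (o : Option (Fin d)) : cc {o} = (d : ℝ) := by
  unfold cc; simp

lemma Pr_singleton (hd : 1 ≤ d) (o : Option (Fin d)) : Pr ({o} : Finset (Option (Fin d))) := by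
  refine ⟨Finset.singleton_nonempty o, ?_⟩
  rw [← Finset.card_pos, Finset.card_compl, Fintype.card_option, Fintype.card_fin,
    Finset.card_singleton]
  omega

lemma Pr_of_notMem {T : Finset (Option (Fin d))} {o : Option (Fin d)} (h1 : T.Nonempty)
    (h2 : o ∉ T) : Pr T := ⟨h1, ⟨o, by simpa using h2⟩⟩

/-- Step A: the separating set of the lattice point next to `pt` is `{o}`. -/
lemma stepA (hd : 1 ≤ d) {Λ : Set (Fin d → ℝ)} {s : ℝ} (hs : 0 < s)
    (hsn : 20 * ((d : ℝ) + 1) ^ 2 * s ≤ 1)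
    (h1 : ∀ l ∈ Λ, l ≠ 0 → ∃ S, Pr S ∧ (1 - s) * cc S ≤ phi S l)
    {o j : Option (Fin d)} (hjo : j ≠ o) {τ : ℝ} (hτ0 : 0 ≤ τ) (hτ1 : τ ≤ 1 - 9 * s)
    {l : Fin d → ℝ} (hl : l ∈ Λ) (hpl : pt s τ o j - l ∈ Cell d (1 + s)) :
    (1 - s) * d ≤ phi {o} l ∧ phi {o} l ≤ (1 + 3 / 2 * s) * d := by
  have hd1 : (1:ℝ) ≤ d := by exact_mod_cast hd
  have hn2 : ((d:ℝ) + 1) ^ 2 * s ≤ 1 / 20 := by linarith
  have hl0 : l ≠ 0 := by
    rintro rfl
    have := hpl {o} (Pr_singleton hd o)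
    rw [sub_zero, phi_pt_self s τ hjo, cc_singleton] at this
    nlinarith
  obtain ⟨T, hT, hTl⟩ := h1 l hl hl0
  have hcT := hT.one_le_cc
  have hccn := cc_le T
  have hscc : s * cc T ≤ 1 / 20 := by nlinarith
  have hk1 := hT.card_pos
  have hk2 := hT.card_le
  have hlow : (1 - 3 * s) * cc T ≤ 2 * phi T (pt s τ o j) := by
    have := hpl Tᶜ hT.compl
    rw [phi_compl, cc_compl, phi_sub] at this
    linarith
  have hTo : T = {o} := by
    by_contra hne
    by_cases ho : o ∈ T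
    · -- `T` has at least two elements
      have hcard : (2:ℝ) ≤ T.card := by
        have : 1 < T.card := by
          rw [Finset.one_lt_card]
          by_contra hcon
          push Not at hcon
          apply hne
          rw [Finset.eq_singleton_iff_unique_mem]
          exact ⟨ho, fun x hx => hcon x hx o ho⟩
        exact_mod_cast this
      have hoc : o ∉ Tᶜ := by simpa using ho
      have hY : phi T (Y o j) ≤ ((d:ℝ) + 1 - T.card) / 2 := by
        have h2 := phi_Y (j := j) hoc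
        rw [phi_compl, card_compl_real] at h2
        split_ifs at h2 <;> linarith
      rw [phi_pt, phi_e1, if_pos ho] at hlow
      have h3 : τ * phi T (Y o j) ≤ (1 - 9 * s) * (((d:ℝ) + 1 - T.card) / 2) := by
        have h4 : τ * phi T (Y o j) ≤ τ * (((d:ℝ) + 1 - T.card) / 2) :=
          mul_le_mul_of_nonneg_left hY hτ0
        have h5 : τ * (((d:ℝ) + 1 - T.card) / 2) ≤ (1 - 9 * s) * (((d:ℝ) + 1 - T.card) / 2) :=
          mul_le_mul_of_nonneg_right hτ1 (by linarith)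
        linarith
      have h6 : (1 - 3 * s) * (2 * ((d:ℝ) + 1 - T.card)) ≤ (1 - 3 * s) * cc T := by
        apply mul_le_mul_of_nonneg_left _ (by nlinarith)
        unfold cc
        nlinarith
      nlinarith
    · have hY : phi T (Y o j) ≤ ((d:ℝ) - T.card) / 2 := by
        have h2 := phi_Y (j := j) ho
        split_ifs at h2 <;> linarith
      rw [phi_pt, phi_e1, if_neg ho] at hlow
      have h3 : τ * phi T (Y o j) ≤ ((d:ℝ) - T.card) / 2 := by
        have h4 : τ * phi T (Y o j) ≤ τ * (((d:ℝ) - T.card) / 2) :=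
          mul_le_mul_of_nonneg_left hY hτ0
        have h5 : τ * (((d:ℝ) - T.card) / 2) ≤ 1 * (((d:ℝ) - T.card) / 2) :=
          mul_le_mul_of_nonneg_right (by linarith) (by linarith)
        linarith
      have h6 : (d:ℝ) + 1 - T.card ≤ cc T := by
        unfold cc
        nlinarith
      nlinarith
  rw [hTo, cc_singleton] at hTl
  refine ⟨hTl, ?_⟩
  have h2 := hpl ({o} : Finset (Option (Fin d)))ᶜ (Pr_singleton hd o).compl
  rw [phi_compl, cc_compl, cc_singleton, phi_sub, phi_pt_self s τ hjo] at h2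
  linarith

/-- projected form -/
def Psi (o : Option (Fin d)) (T : Finset (Option (Fin d))) (x : Fin d → ℝ) : ℝ :=
  d * phi T x + T.card * phi {o} x

lemma Psi_sub (o : Option (Fin d)) (T : Finset (Option (Fin d))) (x y : Fin d → ℝ) :
    Psi o T (x - y) = Psi o T x - Psi o T y := by
  unfold Psi
  rw [phi_sub, phi_sub]; ring

lemma Psi_compl {o : Option (Fin d)} {T : Finset (Option (Fin d))} (ho : o ∉ T) (x : Fin d → ℝ) :
    Psi o (({o} : Finset (Option (Fin d)))ᶜ \ T) x = - Psi o T x := by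
  have hsub : T ⊆ ({o} : Finset (Option (Fin d)))ᶜ := by
    intro a ha
    simp only [Finset.mem_compl, Finset.mem_singleton]
    rintro rfl
    exact ho ha
  have h1 : phi (({o} : Finset (Option (Fin d)))ᶜ \ T) x + phi T x = - phi {o} x := by
    rw [← phi_union Finset.sdiff_disjoint, Finset.sdiff_union_of_subset hsub, phi_compl]
  have h2 : (((({o} : Finset (Option (Fin d)))ᶜ \ T).card : ℕ) : ℝ) = d - T.card := by
    rw [Finset.card_sdiff_of_subset hsub, Nat.cast_sub (Finset.card_le_card hsub), card_compl_real]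
    simp
  unfold Psi
  rw [h2]
  have h3 : phi (({o} : Finset (Option (Fin d)))ᶜ \ T) x = - phi {o} x - phi T x := by linarith
  rw [h3]; ring

/-- Step B: upper bound for the projected form -/
lemma stepB (hd : 1 ≤ d) {s τ : ℝ} (hs : 0 < s) {o j : Option (Fin d)} (hjo : j ≠ o)
    {l : Fin d → ℝ} (hpl : pt s τ o j - l ∈ Cell d (1 + s)) (hlo : (1 - s) * d ≤ phi {o} l)
    {T : Finset (Option (Fin d))} (ho : o ∉ T) :
    2 * Psi o T (pt s τ o j - l) ≤ d * (T.card * (d - T.card) + 5 * ((d : ℝ) + 1) ^ 2 * s) := by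
  have hd1 : (1:ℝ) ≤ d := by exact_mod_cast hd
  rcases T.eq_empty_or_nonempty with rfl | hne
  · unfold Psi phi
    simp
    positivity
  have hT := Pr_of_notMem hne ho
  have h1 := hpl T hT
  have h2 : phi {o} (pt s τ o j - l) ≤ (-(1 / 2) + 2 * s) * d := by
    rw [phi_sub, phi_pt_self s τ hjo]; linarith
  have hk1 := hT.card_pos
  have hk2 := hT.card_le
  have hcc : cc T ≤ ((d:ℝ) + 1) ^ 2 := cc_le T
  have hccd : cc T = T.card * ((d:ℝ) + 1 - T.card) := rfl
  unfold Psi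
  have h3 : (T.card : ℝ) * phi {o} (pt s τ o j - l) ≤ T.card * ((-(1 / 2) + 2 * s) * d) :=
    mul_le_mul_of_nonneg_left h2 (by linarith)
  have h4 : (d:ℝ) * (2 * phi T (pt s τ o j - l)) ≤ d * ((1 + s) * cc T) :=
    mul_le_mul_of_nonneg_left h1 (by linarith)
  have h5 : s * cc T ≤ s * ((d:ℝ) + 1) ^ 2 := mul_le_mul_of_nonneg_left hcc hs.le
  have h6 : s * (T.card : ℝ) ≤ s * ((d:ℝ) + 1) ^ 2 :=
    mul_le_mul_of_nonneg_left (by nlinarith) hs.le
  have h7 : (d:ℝ) * ((1 + s) * cc T) + 2 * (T.card * ((-(1 / 2) + 2 * s) * d)) =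
      d * (T.card * (d - T.card) + (s * cc T + 4 * (s * T.card))) := by
    rw [hccd]; ring
  have h8 : (d:ℝ) * (T.card * (d - T.card) + (s * cc T + 4 * (s * T.card))) ≤
      d * (T.card * (d - T.card) + 5 * ((d : ℝ) + 1) ^ 2 * s) := by
    apply mul_le_mul_of_nonneg_left _ (by linarith)
    linarith
  linarith

lemma stepB' (hd : 1 ≤ d) {s τ : ℝ} (hs : 0 < s) {o j : Option (Fin d)} (hjo : j ≠ o)
    {l : Fin d → ℝ} (hpl : pt s τ o j - l ∈ Cell d (1 + s)) (hlo : (1 - s) * d ≤ phi {o} l)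
    {T : Finset (Option (Fin d))} (ho : o ∉ T) :
    -(d * (T.card * (d - T.card) + 5 * ((d : ℝ) + 1) ^ 2 * s)) ≤ 2 * Psi o T (pt s τ o j - l) := by
  have hsub : T ⊆ ({o} : Finset (Option (Fin d)))ᶜ := by
    intro a ha
    simp only [Finset.mem_compl, Finset.mem_singleton]
    rintro rfl
    exact ho ha
  have h := stepB hd hs hjo hpl hlo (T := ({o} : Finset (Option (Fin d)))ᶜ \ T) (by simp)
  rw [Psi_compl ho] at h
  have h2 : (((({o} : Finset (Option (Fin d)))ᶜ \ T).card : ℕ) : ℝ) = d - T.card := by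
    rw [Finset.card_sdiff_of_subset hsub, Nat.cast_sub (Finset.card_le_card hsub), card_compl_real]
    simp
  rw [h2] at h
  have h3 : (d:ℝ) * ((d - T.card) * (d - (d - T.card)) + 5 * ((d : ℝ) + 1) ^ 2 * s) =
    d * (T.card * (d - T.card) + 5 * ((d : ℝ) + 1) ^ 2 * s) := by ring
  linarith

/-- Step C: lattice points near close test points differ by something short. -/
lemma stepC (hd : 1 ≤ d) {s τ τ' : ℝ} (hs : 0 < s) (hsn : 20 * ((d : ℝ) + 1) ^ 2 * s ≤ 1)
    {o j : Option (Fin d)} (hjo : j ≠ o) (hττ : |τ - τ'| ≤ 1 / (2 * ((d : ℝ) + 1)))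
    {l l' : Fin d → ℝ} (hpl : pt s τ o j - l ∈ Cell d (1 + s))
    (hpl' : pt s τ' o j - l' ∈ Cell d (1 + s))
    (hlo : (1 - s) * d ≤ phi {o} l) 
    (hlo' : (1 - s) * d ≤ phi {o} l') (hlu' : phi {o} l' ≤ (1 + 3 / 2 * s) * d)
    {T : Finset (Option (Fin d))} (hne : T.Nonempty) (ho : o ∉ T) :
    phi T (l - l') < (1 - s) * cc T := by
  have hd1 : (1:ℝ) ≤ d := by exact_mod_cast hd
  have hT := Pr_of_notMem hne ho
  have hk1 := hT.card_pos
  have hk2 := hT.card_le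
  have hcc : cc T ≤ ((d:ℝ) + 1) ^ 2 := cc_le T
  have hccd : cc T = T.card * ((d:ℝ) + 1 - T.card) := rfl
  by_contra hcon
  push Not at hcon
  have hB := stepB hd hs hjo hpl' hlo' ho
  have hB' := stepB' hd hs hjo hpl hlo ho
  rw [Psi_sub] at hB hB'
  have h0 : Psi o T (pt s τ o j) - Psi o T (pt s τ' o j) = (τ - τ') * (d * phi T (Y o j)) := by
    unfold Psi
    rw [phi_pt_self s τ hjo, phi_pt_self s τ' hjo, phi_pt, phi_pt]; ring
  have hY : |phi T (Y o j)| ≤ (d:ℝ) / 2 := by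
    rw [phi_Y ho, abs_le]
    split_ifs <;> constructor <;> linarith
  have h1 : |(τ - τ') * (d * phi T (Y o j))| ≤ d / 4 := by
    rw [abs_mul, abs_mul, abs_of_pos (by linarith : (0:ℝ) < d)]
    calc |τ - τ'| * (d * |phi T (Y o j)|) ≤ 1 / (2 * ((d : ℝ) + 1)) * (d * ((d:ℝ) / 2)) := by
          gcongr
      _ = (d / ((d:ℝ) + 1)) * (d / 4) := by field_simp; ring
      _ ≤ 1 * (d / 4) := by
          gcongr
          rw [div_le_one (by positivity)]; linarith
      _ = d / 4 := one_mul _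
  have h2 := (abs_le.1 h1).2
  -- lower bound for `Psi o T (l - l')`
  have h3 : Psi o T l - Psi o T l' = d * phi T (l - l') + T.card * (phi {o} l - phi {o} l') := by
    unfold Psi
    rw [phi_sub]; ring
  have h4 : (d:ℝ) * ((1 - s) * cc T) ≤ d * phi T (l - l') :=
    mul_le_mul_of_nonneg_left hcon (by linarith)
  have h5 : (T.card : ℝ) * (-(5 / 2 * s) * d) ≤ T.card * (phi {o} l - phi {o} l') :=
    mul_le_mul_of_nonneg_left (by linarith) (by linarith)
  have h6 : s * cc T ≤ 1 / 20 := by nlinarith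
  have h7 : s * (T.card : ℝ) ≤ 1 / 20 := by
    have : (T.card : ℝ) ≤ ((d:ℝ) + 1) ^ 2 := by nlinarith
    nlinarith
  have h8 : ((d:ℝ) + 1) ^ 2 * s ≤ 1 / 20 := by linarith
  -- combine, dividing by `d`
  have h9 : (d:ℝ) * (2 * ((1 - s) * cc T) - 5 * (s * T.card)) ≤
      d * (1 / 2 + 2 * (T.card * (d - T.card) + 5 * (((d : ℝ) + 1) ^ 2 * s))) := by
    nlinarith
  have h10 := le_of_mul_le_mul_left h9 (by linarith)
  rw [hccd] at h10 h6
  nlinarith

/-- Step D: uniqueness -/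
lemma stepD (hd : 1 ≤ d) {Λ : Set (Fin d → ℝ)} (hΛ : ∀ u ∈ Λ, ∀ v ∈ Λ, u - v ∈ Λ)
    {s : ℝ} (hs : 0 < s)
    (hsn : 20 * ((d : ℝ) + 1) ^ 2 * s ≤ 1)
    (h1 : ∀ l ∈ Λ, l ≠ 0 → ∃ S, Pr S ∧ (1 - s) * cc S ≤ phi S l)
    {o j : Option (Fin d)} (hjo : j ≠ o) {τ τ' : ℝ} (hτ0 : 0 ≤ τ) (hτ1 : τ ≤ 1 - 9 * s)
    (hτ0' : 0 ≤ τ') (hτ1' : τ' ≤ 1 - 9 * s) (hττ : |τ - τ'| ≤ 1 / (2 * ((d : ℝ) + 1)))
    {l l' : Fin d → ℝ} (hl : l ∈ Λ) (hl' : l' ∈ Λ) (hpl : pt s τ o j - l ∈ Cell d (1 + s))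
    (hpl' : pt s τ' o j - l' ∈ Cell d (1 + s)) : l = l' := by
  obtain ⟨a1, a2⟩ := stepA hd hs hsn h1 hjo hτ0 hτ1 hl hpl
  obtain ⟨b1, b2⟩ := stepA hd hs hsn h1 hjo hτ0' hτ1' hl' hpl'
  by_contra hne
  obtain ⟨T, hT, hTl⟩ := h1 (l - l') (hΛ l hl l' hl') (sub_ne_zero.2 hne)
  by_cases ho : o ∈ T
  · have h2 := stepC hd hs hsn hjo (by rw [abs_sub_comm]; exact hττ) hpl' hpl b1 a1 a2 hT.2
      (by simpa using ho)
    rw [phi_compl, cc_compl, phi_sub] at h2
    rw [phi_sub] at hTl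
    linarith
  · have h2 := stepC hd hs hsn hjo hττ hpl hpl' a1 b1 b2 hT.1 ho
    linarith

/-- Step E: the lattice contains vectors close to `e1 o`. -/
lemma stepE (hd : 1 ≤ d) {Λ : Set (Fin d → ℝ)} (hΛ : ∀ u ∈ Λ, ∀ v ∈ Λ, u - v ∈ Λ)
    {s : ℝ} (hs : 0 < s)
    (hsn : 20 * ((d : ℝ) + 1) ^ 2 * s ≤ 1)
    (h1 : ∀ l ∈ Λ, l ≠ 0 → ∃ S, Pr S ∧ (1 - s) * cc S ≤ phi S l)
    (h2 : ∀ x, ∃ l ∈ Λ, x - l ∈ Cell d (1 + s)) (o : Option (Fin d)) :
    ∃ l ∈ Λ, ∀ i, |l i - e1 o i| ≤ 18 * ((d : ℝ) + 1) ^ 4 * s := by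
  have hd1 : (1:ℝ) ≤ d := by exact_mod_cast hd
  have hn2 : ((d:ℝ) + 1) ^ 2 * s ≤ 1 / 20 := by linarith
  have hs9 : 0 ≤ 1 - 9 * s := by nlinarith
  have hρ : (0:ℝ) < 1 / (2 * ((d : ℝ) + 1)) := by positivity
  obtain ⟨l₀, hl₀, hp₀⟩ := h2 ((1 / 2 + s) • e1 o)
  have hp₀' : ∀ j, pt s 0 o j - l₀ ∈ Cell d (1 + s) := by
    intro j
    unfold pt
    rw [zero_smul, add_zero]; exact hp₀
  -- chain
  have hchain : ∀ j, j ≠ o → ∀ k : ℕ, ∀ τ : ℝ, 0 ≤ τ → τ ≤ 1 - 9 * s →
      τ ≤ k * (1 / (2 * ((d : ℝ) + 1))) → ∀ l ∈ Λ, pt s τ o j - l ∈ Cell d (1 + s) → l = l₀ := by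
    intro j hj k
    induction k with
    | zero =>
      intro τ h0 h3 h4 l hl hpl
      exact stepD hd hΛ hs hsn h1 hj h0 h3 le_rfl hs9 (by
        rw [sub_zero, abs_of_nonneg h0]
        simp at h4; linarith) hl hl₀ hpl (hp₀' j)
    | succ k ih =>
      intro τ h0 h3 h4 l hl hpl
      set τ' := max (τ - 1 / (2 * ((d : ℝ) + 1))) 0 with hτ'
      have h5 : 0 ≤ τ' := le_max_right _ _
      have h6 : τ' ≤ 1 - 9 * s := max_le (by linarith) hs9
      have h7 : τ' ≤ k * (1 / (2 * ((d : ℝ) + 1))) := by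
        apply max_le _ (by positivity)
        push_cast at h4
        linarith
      obtain ⟨l', hl', hpl'⟩ := h2 (pt s τ' o j)
      have h8 := ih τ' h5 h6 h7 l' hl' hpl'
      rw [← h8]
      refine stepD hd hΛ hs hsn h1 hj h0 h3 h5 h6 ?_ hl hl' hpl hpl'
      rw [abs_le]
      constructor
      · have : τ' ≤ τ := max_le (by linarith) h0
        linarith
      · have : τ - 1 / (2 * ((d : ℝ) + 1)) ≤ τ' := le_max_left _ _
        linarith
  have hend : ∀ j, j ≠ o → pt s (1 - 9 * s) o j - l₀ ∈ Cell d (1 + s) := by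
    intro j hj
    obtain ⟨l', hl', hpl'⟩ := h2 (pt s (1 - 9 * s) o j)
    obtain ⟨k, hk⟩ := exists_nat_ge ((1 - 9 * s) / (1 / (2 * ((d : ℝ) + 1))))
    rw [div_le_iff₀ hρ] at hk
    have := hchain j hj k _ hs9 le_rfl hk l' hl' hpl'
    rwa [this] at hpl'
  -- bounds for `phi {o} l₀`
  have hone : ∃ j : Option (Fin d), j ≠ o := by
    rcases o with _ | i
    · exact ⟨some ⟨0, hd⟩, by simp⟩
    · exact ⟨none, by simp⟩
  obtain ⟨j₀, hj₀⟩ := hone
  obtain ⟨ho1, ho2⟩ := stepA hd hs hsn h1 hj₀ le_rfl hs9 hl₀ (hp₀' j₀)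
  set M : ℝ := 7 * ((d : ℝ) + 1) ^ 3 * s with hM
  have hM0 : 0 ≤ M := by positivity
  -- lower bounds
  have hlow : ∀ j, j ≠ o → -M ≤ Psi o {j} l₀ := by
    intro j hj
    have hoj : o ∉ ({j} : Finset (Option (Fin d))) := by
      simp only [Finset.mem_singleton]; exact fun h => hj h.symm
    have h3 := stepB hd hs hj (hend j hj) ho1 hoj
    rw [Psi_sub] at h3
    have h4 : 2 * Psi o {j} (pt s (1 - 9 * s) o j) = (1 - 9 * s) * (d * (d - 1)) := by
      unfold Psi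
      rw [phi_pt_self s _ hj, phi_pt, phi_Y hoj, phi_e1, if_neg hoj, if_pos (by simp)]
      simp
      ring
    rw [Finset.card_singleton] at h3
    push_cast at h3
    have h5 : (d:ℝ) * (d - 1) * s ≤ ((d:ℝ) + 1) ^ 3 * s := by
      apply mul_le_mul_of_nonneg_right _ hs.le
      nlinarith [pow_pos (by linarith : (0:ℝ) < d) 3, pow_pos (by linarith : (0:ℝ) < d) 2]
    have h6 : (d:ℝ) * ((d:ℝ) + 1) ^ 2 * s ≤ ((d:ℝ) + 1) ^ 3 * s := by
      apply mul_le_mul_of_nonneg_right _ hs.le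
      nlinarith [sq_nonneg ((d:ℝ) + 1)]
    rw [hM]
    nlinarith
  -- the sum vanishes
  have hsum : ∑ j ∈ ({o} : Finset (Option (Fin d)))ᶜ, Psi o {j} l₀ = 0 := by
    unfold Psi
    rw [Finset.sum_add_distrib, ← Finset.mul_sum, sum_phi_singleton, phi_compl]
    simp only [Finset.card_singleton, Finset.sum_const, nsmul_eq_mul]
    rw [card_compl_real]
    simp
  have hup : ∀ j, j ≠ o → Psi o {j} l₀ ≤ d * M := by
    intro j hj
    have hjmem : j ∈ ({o} : Finset (Option (Fin d)))ᶜ := by simpa using hj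
    rw [← Finset.add_sum_erase _ _ hjmem] at hsum
    have h3 : ∑ k ∈ (({o} : Finset (Option (Fin d)))ᶜ).erase j, (-M) ≤
        ∑ k ∈ (({o} : Finset (Option (Fin d)))ᶜ).erase j, Psi o {k} l₀ := by
      apply Finset.sum_le_sum
      intro k hk
      apply hlow k
      have := (Finset.mem_erase.1 hk).2
      simpa using this
    rw [Finset.sum_const, nsmul_eq_mul] at h3
    have h4 : (((({o} : Finset (Option (Fin d)))ᶜ.erase j).card : ℕ) : ℝ) ≤ d := by
      have h5 : (({o} : Finset (Option (Fin d)))ᶜ.erase j).card ≤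
        ({o} : Finset (Option (Fin d)))ᶜ.card := Finset.card_erase_le
      have h6 : ((({o} : Finset (Option (Fin d)))ᶜ.card : ℕ) : ℝ) = d := by
        rw [card_compl_real]; simp
      rw [← h6]
      exact_mod_cast h5
    nlinarith
  have hdM : (d:ℝ) * M + 3 / 2 * s * d ≤ 9 * ((d : ℝ) + 1) ^ 4 * s := by
    rw [hM]
    have h5 : (d:ℝ) * ((d:ℝ) + 1) ^ 3 * s ≤ ((d:ℝ) + 1) ^ 4 * s := by
      apply mul_le_mul_of_nonneg_right _ hs.le
      nlinarith [pow_pos (by linarith : (0:ℝ) < (d:ℝ) + 1) 3]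
    have h6 : (d:ℝ) * s ≤ ((d:ℝ) + 1) ^ 4 * s := by
      apply mul_le_mul_of_nonneg_right _ hs.le
      have : (1:ℝ) ≤ ((d:ℝ) + 1) ^ 3 := one_le_pow₀ (by linarith)
      nlinarith [pow_pos (by linarith : (0:ℝ) < (d:ℝ) + 1) 3]
    nlinarith
  have hall : ∀ a, |phi {a} l₀ - phi {a} (e1 o)| ≤ 9 * ((d : ℝ) + 1) ^ 4 * s := by
    intro a
    by_cases ha : a = o
    · subst ha
      rw [phi_e1, if_pos (by simp), Finset.card_singleton, abs_le]
      push_cast
      have : 0 ≤ (d:ℝ) * M := by positivity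
      constructor <;> nlinarith
    · have h3 := hlow a ha
      have h4 := hup a ha
      have hoa : o ∉ ({a} : Finset (Option (Fin d))) := by
        simp only [Finset.mem_singleton]; exact fun h => ha h.symm
      unfold Psi at h3 h4
      rw [Finset.card_singleton] at h3 h4
      push_cast at h3 h4
      rw [phi_e1, if_neg hoa, Finset.card_singleton]
      push_cast
      have h5 : |(d:ℝ) * (phi {a} l₀ - (0 - 1))| ≤ 9 * ((d : ℝ) + 1) ^ 4 * s := by
        have hMd : M ≤ d * M := by nlinarith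
        have hsd : 0 ≤ s * d := by positivity
        rw [abs_le]
        constructor <;> nlinarith
      rw [abs_mul, abs_of_pos (by linarith : (0:ℝ) < d)] at h5
      have h6 := abs_nonneg (phi {a} l₀ - (0 - 1))
      nlinarith
  refine ⟨l₀, hl₀, fun i => ?_⟩
  have h3 := hall (some i)
  have h4 := hall none
  have h5 := coord_eq l₀ i
  have h6 := coord_eq (e1 o) i
  have h7 : ((d:ℝ) + 1) * (l₀ i - e1 o i) = (phi {some i} l₀ - phi {some i} (e1 o)) -
      (phi {none} l₀ - phi {none} (e1 o)) := by linarith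
  have h8 : ((d:ℝ) + 1) * |l₀ i - e1 o i| ≤ 18 * ((d : ℝ) + 1) ^ 4 * s := by
    rw [← abs_of_pos (by positivity : (0:ℝ) < (d:ℝ) + 1), ← abs_mul,
      abs_of_pos (by positivity : (0:ℝ) < (d:ℝ) + 1), h7]
    calc _ ≤ |phi {some i} l₀ - phi {some i} (e1 o)| + |phi {none} l₀ - phi {none} (e1 o)| :=
          abs_sub _ _
      _ ≤ _ := by linarith
  have h9 := abs_nonneg (l₀ i - e1 o i)
  nlinarith

end Pool.Agent.H617R3
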