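import Mathlib
import Pool.Agent.H617R3.NearL

set_option autoImplicit false

namespace Pool.Agent.H617R3

open Matrix Finset MeasureTheory Module
open scoped Pointwise ENNReal Topology
open Pool.Agent.Helper876 (cast cast_apply cast_sub cast_add J J_mul_J det_near_one OT quad_expand)

variable {d : ℕ}

/-- Gram matrix of `q` -/
def Qm (d : ℕ) : Matrix (Fin d) (Fin d) ℝ := ((d : ℝ) + 1) • 1 - J d

/-- inverse of the Gram matrix -/
noncomputable def Pm (d : ℕ) : Matrix (Fin d) (Fin d) ℝ := (1 / ((d : ℝ) + 1)) • (1 + J d)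

lemma Qm_mul_Pm : Qm d * Pm d = 1 := by
  unfold Qm Pm
  have h : ((d : ℝ) + 1) ≠ 0 := by positivity
  rw [Matrix.mul_smul, sub_mul, mul_add, mul_add, J_mul_J]
  simp only [Matrix.smul_mul, one_mul, mul_one]
  ext i j
  simp [Pool.Agent.Helper876.J]
  field_simp
  ring

lemma J_mulVec (x : Fin d → ℝ) : J d *ᵥ x = fun _ => ∑ i, x i := by
  funext k
  simp [Pool.Agent.Helper876.J, Matrix.mulVec, dotProduct]

lemma dot_Qm (x y : Fin d → ℝ) :
    y ⬝ᵥ (Qm d *ᵥ x) = ((d : ℝ) + 1) * ∑ i, y i * x i - (∑ i, y i) * ∑ i, x i := by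
  unfold Qm
  rw [Matrix.sub_mulVec, Matrix.smul_mulVec, Matrix.one_mulVec, dotProduct_sub, J_mulVec,
    dotProduct_smul]
  simp only [dotProduct, smul_eq_mul]
  rw [← Finset.sum_mul]

lemma q_eq (x : Fin d → ℝ) : x ⬝ᵥ (Qm d *ᵥ x) = q x := by
  rw [dot_Qm]
  unfold q
  simp only [sq]

lemma phi_eq_dot (S : Finset (Option (Fin d))) (x : Fin d → ℝ) :
    cast (ind S) ⬝ᵥ (Qm d *ᵥ x) = phi S x := by
  classical
  have key : ∀ u : Option (Fin d) → ℝ, ∀ (hy : ∀ i, cast (ind S) i = u (some i) - u none),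
      cast (ind S) ⬝ᵥ (Qm d *ᵥ x) = ((d : ℝ) + 1) * ∑ a, u a * ex x a - (∑ a, u a) * ∑ a, ex x a := by
    intro u hy
    rw [dot_Qm, Fintype.sum_option, Fintype.sum_option, Fintype.sum_option]
    simp only [hy, ex_some, ex_none, mul_zero, zero_add, sub_mul, Finset.sum_sub_distrib,
      Finset.sum_const, Finset.card_univ, Fintype.card_fin, nsmul_eq_mul, ← Finset.mul_sum]
    ring
  rw [key (fun a => if a ∈ S then 1 else 0) (by intro i; simp [ind])]
  unfold phi
  simp only [ite_mul, one_mul, zero_mul]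
  rw [Finset.sum_ite_mem, Finset.sum_ite_mem]
  simp

lemma Qm_transpose : (Qm d)ᵀ = Qm d := by
  ext i j; simp [Qm, Pool.Agent.Helper876.J, Matrix.one_apply, eq_comm]

lemma Qm_posDef : (Qm d).PosDef := by
  rw [Matrix.posDef_iff_dotProduct_mulVec]
  refine ⟨?_, ?_⟩
  · show (Qm d)ᴴ = Qm d
    rw [Matrix.conjTranspose_eq_transpose_of_trivial, Qm_transpose]
  · intro x hx
    simp only [star_trivial]
    rw [q_eq]
    have e3 : 0 < ∑ i, x i ^ 2 := by
      obtain ⟨i, hi⟩ := Function.ne_iff.1 hx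
      have h2 : x i ^ 2 ≤ ∑ i, x i ^ 2 :=
        Finset.single_le_sum (f := fun i => x i ^ 2) (fun i _ => sq_nonneg _) (Finset.mem_univ i)
      have h3 : 0 < x i ^ 2 := by
        have : x i ≠ 0 := hi
        positivity
      linarith
    exact e3.trans_le (sum_sq_le_q x)

lemma det_Qm_pos : 0 < (Qm d).det := Qm_posDef.det_pos

lemma e1_some_single (i : Fin d) : (e1 (some i) : Fin d → ℝ) = Pi.single i 1 := by
  funext k
  unfold e1 ind
  simp [Pi.single_apply]

lemma e1_none : (e1 none : Fin d → ℝ) = fun _ => -1 := by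
  funext k
  unfold e1 ind
  simp

lemma sum_e1 : ∑ a, (e1 a : Fin d → ℝ) = 0 := by
  rw [Fintype.sum_option, e1_none]
  funext k
  simp [e1_some_single, Finset.sum_apply, Pi.single_apply]

lemma cast_ind_pair {a b : Option (Fin d)} (h : a ≠ b) :
    cast (ind {a, b}) = e1 a + e1 b := by
  funext i
  unfold e1 ind
  simp only [Finset.mem_insert, Finset.mem_singleton, cast_apply, Pi.add_apply]
  have h1 : ∀ o : Option (Fin d), (if o = a ∨ o = b then (1:ℤ) else 0) =
      (if o = a then 1 else 0) + (if o = b then 1 else 0) := by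
    intro o
    by_cases ha : o = a
    · have hb : o ≠ b := fun hb => h (ha.symm.trans hb)
      simp [ha, h]
    · simp [ha]
  rw [h1, h1]
  push_cast
  ring

/-- extended matrix -/
def gx (H : Matrix (Fin d) (Fin d) ℝ) (a b : Option (Fin d)) : ℝ := e1 a ⬝ᵥ (H *ᵥ e1 b)

/-- trace of the extended matrix -/
def Tr (H : Matrix (Fin d) (Fin d) ℝ) : ℝ := ∑ a, gx H a a

lemma gx_some (H : Matrix (Fin d) (Fin d) ℝ) (i j : Fin d) : gx H (some i) (some j) = H i j := by
  unfold gx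
  rw [e1_some_single, e1_some_single]
  simp

lemma sum_gx (H : Matrix (Fin d) (Fin d) ℝ) (a : Option (Fin d)) : ∑ b, gx H a b = 0 := by
  unfold gx
  rw [← dotProduct_sum]
  have : ∑ b, H *ᵥ (e1 b : Fin d → ℝ) = 0 := by
    have h := map_sum (Matrix.mulVecLin H) (fun b => (e1 b : Fin d → ℝ)) Finset.univ
    simp only [Matrix.mulVecLin_apply] at h
    rw [← h, sum_e1, Matrix.mulVec_zero]
  rw [this, dotProduct_zero]

lemma gx_symm {H : Matrix (Fin d) (Fin d) ℝ} (hH : Hᵀ = H) (a b : Option (Fin d)) :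
    gx H a b = gx H b a := by
  unfold gx
  rw [Matrix.dotProduct_mulVec, ← Matrix.mulVec_transpose, hH, dotProduct_comm]

lemma Tr_eq (H : Matrix (Fin d) (Fin d) ℝ) : Tr H = H.trace + ∑ i, ∑ j, H i j := by
  unfold Tr
  rw [Fintype.sum_option]
  simp only [gx_some]
  have : gx H none none = ∑ i, ∑ j, H i j := by
    unfold gx
    rw [e1_none]
    simp [Matrix.mulVec, dotProduct]
  rw [this, Matrix.trace]
  simp only [Matrix.diag_apply]
  ring

lemma trace_Pm_mul (H : Matrix (Fin d) (Fin d) ℝ) : (Pm d * H).trace = Tr H / (d + 1) := by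
  unfold Pm
  rw [Matrix.smul_mul, Matrix.trace_smul, add_mul, Matrix.trace_add, one_mul, Tr_eq]
  have h3 : ∀ i, (J d * H) i i = ∑ j, H j i := by
    intro i
    simp [Pool.Agent.Helper876.J, Matrix.mul_apply]
  have h4 : (J d * H).trace = ∑ i, (J d * H) i i := rfl
  rw [h4, Finset.sum_congr rfl fun i _ => h3 i, Finset.sum_comm]
  simp only [smul_eq_mul]
  ring

section bounds

variable {H : Matrix (Fin d) (Fin d) ℝ}

lemma sum_pairs (a : Option (Fin d)) :
    ∑ b ∈ Finset.univ.erase a, (gx H a a + gx H b b + 2 * gx H a b) =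
      ((d : ℝ) - 3) * gx H a a + Tr H := by
  have h1 : ∑ b, (gx H a a + gx H b b + 2 * gx H a b) = ((d : ℝ) + 1) * gx H a a + Tr H := by
    simp only [Finset.sum_add_distrib, Finset.sum_const, Finset.card_univ, Fintype.card_option,
      Fintype.card_fin, nsmul_eq_mul, ← Finset.mul_sum]
    rw [sum_gx]
    unfold Tr
    push_cast; ring
  rw [← Finset.add_sum_erase _ _ (Finset.mem_univ a)] at h1
  linarith

lemma low_aux (hp : ∀ a b, a ≠ b → 0 ≤ gx H a a + gx H b b + 2 * gx H a b)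
    (a : Option (Fin d)) : 0 ≤ ((d : ℝ) - 3) * gx H a a + Tr H := by
  rw [← sum_pairs]
  exact Finset.sum_nonneg fun b hb => hp a b (Finset.ne_of_mem_erase hb).symm

lemma Tr_nonneg (hd : 4 ≤ d) (hp : ∀ a b, a ≠ b → 0 ≤ gx H a a + gx H b b + 2 * gx H a b) :
    0 ≤ Tr H := by
  have hd4 : (4:ℝ) ≤ d := by exact_mod_cast hd
  have h1 : 0 ≤ ∑ a, (((d : ℝ) - 3) * gx H a a + Tr H) :=
    Finset.sum_nonneg fun a _ => low_aux hp a
  rw [Finset.sum_add_distrib, ← Finset.mul_sum] at h1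
  have h2 : ∑ a, gx H a a = Tr H := rfl
  rw [h2] at h1
  simp only [Finset.sum_const, Finset.card_univ, Fintype.card_option,
      Fintype.card_fin, nsmul_eq_mul] at h1
  push_cast at h1
  by_contra h
  push Not at h
  nlinarith

lemma diag_low (hd : 4 ≤ d) (hp : ∀ a b, a ≠ b → 0 ≤ gx H a a + gx H b b + 2 * gx H a b)
    (a : Option (Fin d)) : -Tr H ≤ gx H a a := by
  have hd4 : (4:ℝ) ≤ d := by exact_mod_cast hd
  have h1 := low_aux hp a
  have h2 := Tr_nonneg hd hp
  by_contra h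
  push Not at h
  nlinarith

lemma diag_up (hd : 4 ≤ d) (hp : ∀ a b, a ≠ b → 0 ≤ gx H a a + gx H b b + 2 * gx H a b)
    (a : Option (Fin d)) : gx H a a ≤ ((d : ℝ) + 1) * Tr H := by
  have h0 : Tr H = gx H a a + ∑ b ∈ Finset.univ.erase a, gx H b b :=
    (Finset.add_sum_erase _ _ (Finset.mem_univ a)).symm
  have h1 : ∑ _b ∈ Finset.univ.erase a, (-Tr H) ≤ ∑ b ∈ Finset.univ.erase a, gx H b b :=
    Finset.sum_le_sum fun b _ => diag_low hd hp b
  rw [Finset.sum_const, nsmul_eq_mul, Finset.card_erase_of_mem (Finset.mem_univ a),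
    Finset.card_univ, Fintype.card_option, Fintype.card_fin, Nat.add_sub_cancel] at h1
  linarith

lemma gx_abs (hd : 4 ≤ d) (hp : ∀ a b, a ≠ b → 0 ≤ gx H a a + gx H b b + 2 * gx H a b)
    (a b : Option (Fin d)) : |gx H a b| ≤ 2 * ((d : ℝ) + 1) ^ 2 * Tr H := by
  have hd4 : (4:ℝ) ≤ d := by exact_mod_cast hd
  have hT := Tr_nonneg hd hp
  have ha1 := diag_low hd hp a
  have ha2 := diag_up hd hp a
  have hb1 := diag_low hd hp b
  have hb2 := diag_up hd hp b
  have hn : ((d : ℝ) + 1) * Tr H ≤ ((d : ℝ) + 1) ^ 2 * Tr H := by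
    apply mul_le_mul_of_nonneg_right _ hT
    nlinarith
  have h1n : Tr H ≤ ((d : ℝ) + 1) * Tr H := by nlinarith
  by_cases hab : a = b
  · subst hab
    rw [abs_le]
    constructor <;> linarith
  · have h1 := hp a b hab
    have h2 : gx H a a + gx H b b + 2 * gx H a b ≤ ((d : ℝ) - 3) * gx H a a + Tr H := by
      rw [← sum_pairs]
      exact Finset.single_le_sum (f := fun b => gx H a a + gx H b b + 2 * gx H a b)
        (fun c hc => hp a c (Finset.ne_of_mem_erase hc).symm)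
        (Finset.mem_erase.2 ⟨Ne.symm hab, Finset.mem_univ b⟩)
    have h3 : ((d : ℝ) - 3) * gx H a a ≤ ((d : ℝ) - 3) * (((d : ℝ) + 1) * Tr H) :=
      mul_le_mul_of_nonneg_left ha2 (by linarith)
    have h4 : ((d : ℝ) - 3) * (((d : ℝ) + 1) * Tr H) + Tr H ≤ ((d : ℝ) + 1) ^ 2 * Tr H := by
      nlinarith
    rw [abs_le]
    constructor <;> linarith

end bounds

/-- Local optimality in terms of Gram matrices. -/
lemma det_local (d : ℕ) (hd : 4 ≤ d) : ∃ η : ℝ, 0 < η ∧ ∀ H : Matrix (Fin d) (Fin d) ℝ,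
    (∀ a b, a ≠ b → 0 ≤ gx H a a + gx H b b + 2 * gx H a b) → Tr H ≤ η →
    (Qm d).det * (1 + Tr H / (2 * (d + 1))) ≤ (Qm d + H).det := by
  have hn : (0:ℝ) < (d : ℝ) + 1 := by positivity
  obtain ⟨η, hη, h⟩ := det_near_one d (κ := 1 / (4 * ((d : ℝ) + 1) ^ 3)) (by positivity)
  refine ⟨η / (2 * ((d : ℝ) + 1) ^ 2), by positivity, ?_⟩
  intro H hp hT
  have hTn := Tr_nonneg hd hp
  have hfac : Qm d + H = Qm d * (1 + Pm d * H) := by
    rw [mul_add, mul_one, ← mul_assoc, Qm_mul_Pm, one_mul]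
  rw [hfac, Matrix.det_mul]
  apply mul_le_mul_of_nonneg_left _ det_Qm_pos.le
  have habs : ∀ i j, |H i j| ≤ 2 * ((d : ℝ) + 1) ^ 2 * Tr H := by
    intro i j
    rw [← gx_some H i j]; exact gx_abs hd hp _ _
  have hM : ∀ i j, |(Pm d * H) i j| ≤ 2 * ((d : ℝ) + 1) ^ 2 * Tr H := by
    intro i j
    have h2 : (Pm d * H) i j = (1 / ((d:ℝ) + 1)) * (H i j + ∑ k, H k j) := by
      unfold Pm
      rw [Matrix.smul_mul, Matrix.smul_apply, add_mul, one_mul, Matrix.add_apply,
        Matrix.mul_apply]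
      simp [Pool.Agent.Helper876.J]
    have h3 : |∑ k, H k j| ≤ d * (2 * ((d : ℝ) + 1) ^ 2 * Tr H) := by
      calc |∑ k, H k j| ≤ ∑ k, |H k j| := Finset.abs_sum_le_sum_abs _ _
        _ ≤ ∑ _k : Fin d, 2 * ((d : ℝ) + 1) ^ 2 * Tr H := Finset.sum_le_sum fun k _ => habs k j
        _ = d * (2 * ((d : ℝ) + 1) ^ 2 * Tr H) := by simp
    rw [h2, abs_mul, abs_of_pos (by positivity : (0:ℝ) < 1 / ((d:ℝ) + 1)), one_div,
        inv_mul_le_iff₀ hn]
    calc |H i j + ∑ k, H k j| ≤ |H i j| + |∑ k, H k j| := abs_add_le _ _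
      _ ≤ _ := by linarith [habs i j]
  have h5 := h (Pm d * H) (2 * ((d : ℝ) + 1) ^ 2 * Tr H) (by positivity) (by
    rw [le_div_iff₀ (by positivity)] at hT
    linarith) hM
  rw [trace_Pm_mul] at h5
  have h6 := (abs_le.1 h5).1
  have h7 : 1 / (4 * ((d : ℝ) + 1) ^ 3) * (2 * ((d : ℝ) + 1) ^ 2 * Tr H) =
      Tr H / (2 * (d + 1)) := by
    field_simp; ring
  have h8 : Tr H / ((d:ℝ) + 1) = 2 * (Tr H / (2 * (d + 1))) := by
    field_simp
  rw [h7] at h6
  rw [h8] at h6
  linarith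

/-- the local optimality lemma -/
lemma local_lemma (d : ℕ) (hd : 4 ≤ d) : ∃ η : ℝ, 0 < η ∧ ∀ B : Matrix (Fin d) (Fin d) ℝ,
    (∀ i j, |B i j - (1 : Matrix (Fin d) (Fin d) ℝ) i j| ≤ η) →
    (∀ S : Finset (Option (Fin d)), S.card = 2 → cc S ≤ phi S (B *ᵥ cast (ind S))) →
    1 ≤ B.det ∧ (B.det ≤ 1 → B = 1) := by
  obtain ⟨η₁, hη₁, hloc⟩ := det_local d hd
  -- the symmetric defect
  let Hf : (Fin d → Fin d → ℝ) → Matrix (Fin d) (Fin d) ℝ := fun B =>
    (1 / 2 : ℝ) • (Qm d * Matrix.of B + (Qm d * Matrix.of B)ᵀ) - Qm d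
  have hcont : Continuous fun B : Fin d → Fin d → ℝ => Tr (Hf B) := by
    simp only [Tr_eq, Matrix.trace, Matrix.diag_apply, Hf, Matrix.sub_apply, Matrix.smul_apply,
      Matrix.add_apply, Matrix.transpose_apply, Matrix.mul_apply, Matrix.of_apply]
    fun_prop
  have hcontdet : Continuous fun B : Fin d → Fin d → ℝ => (Matrix.of B).det :=
    Pool.Agent.Helper876.continuous_det_of
  let I0 : Fin d → Fin d → ℝ := fun i j => (1 : Matrix (Fin d) (Fin d) ℝ) i j
  have hI0 : Matrix.of I0 = 1 := rfl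
  have hH0 : Hf I0 = 0 := by
    simp only [Hf]
    rw [hI0, mul_one, Qm_transpose, ← two_smul ℝ (Qm d), smul_smul]
    norm_num
  have hT0 : Tr (Hf I0) = 0 := by rw [hH0, Tr_eq]; simp
  set η₂ : ℝ := min η₁ (1 / (4 * ((d : ℝ) + 1) ^ 3)) with hη₂
  have hη₂pos : 0 < η₂ := lt_min hη₁ (by positivity)
  have hev1 : ∀ᶠ B in 𝓝 I0, Tr (Hf B) < η₂ := by
    apply hcont.continuousAt.eventually_lt continuousAt_const
    rw [hT0]; exact hη₂pos
  have hev2 : ∀ᶠ B in 𝓝 I0, 0 < (Matrix.of B).det := by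
    apply continuousAt_const.eventually_lt hcontdet.continuousAt
    rw [hI0]; simp
  have hev := hev1.and hev2
  rw [Metric.eventually_nhds_iff] at hev
  obtain ⟨ε, hε, hev⟩ := hev
  refine ⟨ε / 2, by positivity, ?_⟩
  intro B hB hadm
  have hdist : dist (fun i j => B i j) I0 < ε := by
    have : dist (fun i j => B i j) I0 ≤ ε / 2 := by
      rw [dist_pi_le_iff (by positivity)]
      intro i
      rw [dist_pi_le_iff (by positivity)]
      intro j
      exact hB i j
    linarith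
  obtain ⟨hTlt, hdetpos⟩ := hev hdist
  have hofB : Matrix.of (fun i j => B i j) = B := rfl
  rw [hofB] at hdetpos
  set F : Matrix (Fin d) (Fin d) ℝ := Qm d * B with hF
  set S : Matrix (Fin d) (Fin d) ℝ := (1 / 2 : ℝ) • (F + Fᵀ) with hS
  set K : Matrix (Fin d) (Fin d) ℝ := (1 / 2 : ℝ) • (F - Fᵀ) with hK
  set H : Matrix (Fin d) (Fin d) ℝ := S - Qm d with hH
  have hHf : Hf (fun i j => B i j) = H := rfl
  rw [hHf] at hTlt
  have hSK : S + K = F := by
    rw [hS, hK, ← smul_add]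
    have : F + Fᵀ + (F - Fᵀ) = (2:ℝ) • F := by rw [two_smul]; abel
    rw [this, smul_smul]; norm_num
  have hKT : Kᵀ = -K := by
    rw [hK, Matrix.transpose_smul, Matrix.transpose_sub, Matrix.transpose_transpose, ← smul_neg]
    congr 1; abel
  have hST : Sᵀ = S := by
    rw [hS, Matrix.transpose_smul, Matrix.transpose_add, Matrix.transpose_transpose, add_comm]
  have hHT : Hᵀ = H := by
    rw [hH, Matrix.transpose_sub, hST, Qm_transpose]
  -- admissibility
  have hSx : ∀ x : Fin d → ℝ, x ⬝ᵥ (S *ᵥ x) = x ⬝ᵥ (F *ᵥ x) := by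
    intro x
    rw [hS, Matrix.smul_mulVec, Matrix.add_mulVec, dotProduct_smul, dotProduct_add]
    have : x ⬝ᵥ (Fᵀ *ᵥ x) = x ⬝ᵥ (F *ᵥ x) := by
      rw [Matrix.mulVec_transpose, dotProduct_comm, ← Matrix.dotProduct_mulVec]
    rw [this, smul_eq_mul]; ring
  have hpair : ∀ a b, a ≠ b → 0 ≤ gx H a a + gx H b b + 2 * gx H a b := by
    intro a b hab
    have h1 := hadm {a, b} (Finset.card_pair hab)
    rw [← phi_eq_dot, Matrix.mulVec_mulVec, ← hF, ← hSx, ← phi_ind_self, ← phi_eq_dot] at h1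
    have h2 : cast (ind {a, b}) ⬝ᵥ (H *ᵥ cast (ind {a, b})) =
        gx H a a + gx H b b + 2 * gx H a b := by
      rw [cast_ind_pair hab, Matrix.mulVec_add, dotProduct_add, add_dotProduct, add_dotProduct]
      have h3 := gx_symm hHT a b
      unfold gx at h3 ⊢
      linarith
    rw [← h2, hH, Matrix.sub_mulVec, dotProduct_sub]
    linarith
  have hTnn : 0 ≤ Tr H := Tr_nonneg hd hpair
  have hdet1 := hloc H hpair (hTlt.le.trans (min_le_left _ _))
  have hQH : Qm d + H = S := by rw [hH]; abel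
  rw [hQH] at hdet1
  have habs : ∀ i j, |H i j| ≤ 2 * ((d : ℝ) + 1) ^ 2 * Tr H := by
    intro i j
    rw [← gx_some H i j]; exact gx_abs hd hpair _ _
  -- positive definiteness
  have hSpd : S.PosDef := by
    rw [Matrix.posDef_iff_dotProduct_mulVec]
    refine ⟨?_, ?_⟩
    · show Sᴴ = S
      rw [Matrix.conjTranspose_eq_transpose_of_trivial, hST]
    · intro x hx
      simp only [star_trivial]
      have e1 : x ⬝ᵥ (S *ᵥ x) = q x + x ⬝ᵥ (H *ᵥ x) := by
        rw [← hQH, Matrix.add_mulVec, dotProduct_add, q_eq]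
      rw [e1]
      have e2 : |x ⬝ᵥ (H *ᵥ x)| ≤ (2 * ((d : ℝ) + 1) ^ 2 * Tr H) * (d * ∑ i, x i ^ 2) := by
        rw [quad_expand]
        calc |∑ i, ∑ j, x i * x j * H i j|
            ≤ ∑ i, |∑ j, x i * x j * H i j| := Finset.abs_sum_le_sum_abs _ _
          _ ≤ ∑ i, ∑ j, |x i * x j * H i j| :=
              Finset.sum_le_sum fun i _ => Finset.abs_sum_le_sum_abs _ _
          _ ≤ ∑ i, ∑ j, |x i| * |x j| * (2 * ((d : ℝ) + 1) ^ 2 * Tr H) := by
              refine Finset.sum_le_sum fun i _ => Finset.sum_le_sum fun j _ => ?_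
              rw [abs_mul, abs_mul]
              exact mul_le_mul_of_nonneg_left (habs i j) (by positivity)
          _ = (2 * ((d : ℝ) + 1) ^ 2 * Tr H) * (∑ i, |x i|) ^ 2 := by
              rw [sq (∑ i, |x i|), Finset.sum_mul_sum, Finset.mul_sum]
              refine Finset.sum_congr rfl fun i _ => ?_
              rw [Finset.mul_sum]
              refine Finset.sum_congr rfl fun j _ => by ring
          _ ≤ (2 * ((d : ℝ) + 1) ^ 2 * Tr H) * (d * ∑ i, x i ^ 2) := by
              apply mul_le_mul_of_nonneg_left _ (by positivity)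
              have := sq_sum_le_card_mul_sum_sq (s := (Finset.univ : Finset (Fin d)))
                (f := fun i => |x i|)
              simpa using this
      have e3 : 0 < ∑ i, x i ^ 2 := by
        obtain ⟨i, hi⟩ := Function.ne_iff.1 hx
        have h2 : x i ^ 2 ≤ ∑ i, x i ^ 2 :=
          Finset.single_le_sum (f := fun i => x i ^ 2) (fun i _ => sq_nonneg _) (Finset.mem_univ i)
        have h3 : 0 < x i ^ 2 := by
          have : x i ≠ 0 := hi
          positivity
        linarith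
      have e4 : ∑ i, x i ^ 2 ≤ q x := sum_sq_le_q x
      have e5 : Tr H * (4 * ((d : ℝ) + 1) ^ 3) ≤ 1 := by
        have h5 : Tr H ≤ 1 / (4 * ((d : ℝ) + 1) ^ 3) := hTlt.le.trans (min_le_right _ _)
        rwa [le_div_iff₀ (by positivity)] at h5
      have e6 : (2 * ((d : ℝ) + 1) ^ 2 * Tr H) * (d * ∑ i, x i ^ 2) ≤ (1 / 2) * ∑ i, x i ^ 2 := by
        have h7 : (2 * ((d : ℝ) + 1) ^ 2 * Tr H) * d ≤ (2 * ((d : ℝ) + 1) ^ 2 * Tr H) * (d + 1) := by
          apply mul_le_mul_of_nonneg_left _ (by positivity)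
          linarith
        have : (2 * ((d : ℝ) + 1) ^ 2 * Tr H) * d ≤ 1 / 2 := by nlinarith
        calc (2 * ((d : ℝ) + 1) ^ 2 * Tr H) * (d * ∑ i, x i ^ 2) =
              ((2 * ((d : ℝ) + 1) ^ 2 * Tr H) * d) * ∑ i, x i ^ 2 := by ring
          _ ≤ _ := mul_le_mul_of_nonneg_right this e3.le
      have e7 := (abs_le.1 e2).1
      linarith
  have hot := OT hSpd hKT
  rw [hSK] at hot
  have hdF : F.det = (Qm d).det * B.det := by rw [hF, Matrix.det_mul]
  have hdQ := det_Qm_pos (d := d)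
  have hFpos : 0 < F.det := by rw [hdF]; positivity
  have hSpos : 0 < S.det := hSpd.det_pos
  have hSF : S.det ≤ F.det := by
    have := hot.1
    exact (pow_le_pow_iff_left₀ hSpos.le hFpos.le two_ne_zero).1 this
  have hmain : 1 + Tr H / (2 * (d + 1)) ≤ B.det := by
    have h3 : (Qm d).det * (1 + Tr H / (2 * (d + 1))) ≤ (Qm d).det * B.det := by
      rw [← hdF]; linarith
    exact le_of_mul_le_mul_left h3 hdQ
  have hdivnn : 0 ≤ Tr H / (2 * (d + 1)) := by positivity
  refine ⟨by linarith, ?_⟩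
  intro hle
  have hT0' : Tr H = 0 := by
    have h4 : Tr H / (2 * (d + 1)) ≤ 0 := by linarith
    have h5 : Tr H / (2 * (d + 1)) = 0 := le_antisymm h4 hdivnn
    rcases div_eq_zero_iff.1 h5 with h6 | h6
    · exact h6
    · exfalso
      have : (0:ℝ) < 2 * (d + 1) := by positivity
      linarith
  have hH0' : H = 0 := by
    ext i j
    have := habs i j
    rw [hT0', mul_zero] at this
    have := abs_eq_zero.1 (le_antisymm this (abs_nonneg _))
    simpa using this
  have hSQ : S = Qm d := by rw [← hQH, hH0', add_zero]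
  have hK0 : K = 0 := by
    apply hot.2
    have : F.det ≤ S.det := by
      rw [hSQ, hdF]
      nlinarith
    exact pow_le_pow_left₀ hFpos.le this 2
  have hFQ : F = Qm d := by rw [← hSK, hK0, hSQ, add_zero]
  have hQu : IsUnit (Qm d).det := isUnit_iff_ne_zero.2 hdQ.ne'
  calc B = ((Qm d)⁻¹ * Qm d) * B := by rw [Matrix.nonsing_inv_mul _ hQu, one_mul]
    _ = (Qm d)⁻¹ * F := by rw [hF, mul_assoc]
    _ = 1 := by rw [hFQ, Matrix.nonsing_inv_mul _ hQu]

end Pool.Agent.H617R3
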