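import Mathlib
import Pool.Agent.H617R3.NearL

set_option autoImplicit false

namespace Pool.Agent.H617R3

open Matrix Finset MeasureTheory Module Filter
open scoped Pointwise ENNReal Topology
open Pool.Agent.Helper876 (cast cast_apply cast_sub cast_add Near det_near det_map)

variable {d : ℕ}

lemma e1_some (i j : Fin d) : e1 (some j) i = (1 : Matrix (Fin d) (Fin d) ℝ) i j := by
  unfold e1 ind
  simp [Matrix.one_apply]

/-- Global closeness: every nearly admissible lattice with small determinant has a basis near `1`. -/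
lemma near_I (d : ℕ) (hd : 1 ≤ d) {η : ℝ} (hη : 0 < η) :
    ∃ s₀ : ℝ, 0 < s₀ ∧ ∀ s : ℝ, 0 < s → s ≤ s₀ →
    ∀ B : Matrix (Fin d) (Fin d) ℝ, B.det ≠ 0 →
    (∀ z : Fin d → ℤ, z ≠ 0 → ∃ S, Pr S ∧ (1 - s) * cc S ≤ phi S (B *ᵥ cast z)) →
    |B.det| ≤ (1 + s) ^ d →
    ∃ Z : Matrix (Fin d) (Fin d) ℤ, IsUnit Z.det ∧ Near η (B * Z.map (fun k : ℤ => (k : ℝ))) := by
  obtain ⟨η₁, hη₁, hdetn⟩ := det_near d (κ := 1 / 4) (by norm_num)
  set D : ℝ := 20 * ((d : ℝ) + 1) ^ 4 with hD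
  have hDpos : 0 < D := by positivity
  set β : ℝ := min 1 (min η η₁) with hβ
  have hβpos : 0 < β := lt_min (by norm_num) (lt_min hη hη₁)
  have hβ1 : β ≤ 1 := min_le_left _ _
  have hβ2 : β ≤ η := (min_le_right _ _).trans (min_le_left _ _)
  have hβ3 : β ≤ η₁ := (min_le_right _ _).trans (min_le_right _ _)
  set s' : ℝ := β / D with hs'
  have hs'pos : 0 < s' := by positivity
  have hs'1 : 18 * ((d : ℝ) + 1) ^ 4 * s' ≤ β := by
    have h1 : 18 * ((d : ℝ) + 1) ^ 4 ≤ D := by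
      rw [hD]
      have : (0:ℝ) ≤ ((d : ℝ) + 1) ^ 4 := by positivity
      linarith
    calc 18 * ((d : ℝ) + 1) ^ 4 * s' ≤ D * s' := by gcongr
      _ = β := by rw [hs']; field_simp
  have hs'2 : 20 * ((d : ℝ) + 1) ^ 2 * s' ≤ 1 := by
    have h1 : 20 * ((d : ℝ) + 1) ^ 2 ≤ D := by
      rw [hD]
      have : ((d : ℝ) + 1) ^ 2 ≤ ((d : ℝ) + 1) ^ 4 :=
        pow_le_pow_right₀ (by linarith [(Nat.cast_nonneg d : (0:ℝ) ≤ d)]) (by norm_num)
      linarith
    calc 20 * ((d : ℝ) + 1) ^ 2 * s' ≤ D * s' := by gcongr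
      _ = β := by rw [hs']; field_simp
      _ ≤ 1 := hβ1
  set ηc : ℝ := s' / 8 with hηc
  have hηcpos : 0 < ηc := by positivity
  -- smallness of `s`
  have hev1 : ∀ᶠ s : ℝ in 𝓝 0, (1 + s) ^ d - (1 - 2 * s) ^ d < (2 * ηc) ^ d := by
    apply ContinuousAt.eventually_lt _ continuousAt_const
    · simp; positivity
    · fun_prop
  have hev2 : ∀ᶠ s : ℝ in 𝓝 0, (3 : ℝ) / 4 < (1 - 2 * s) ^ d := by
    apply ContinuousAt.eventually_lt continuousAt_const
    · fun_prop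
    · norm_num
  have hev := hev1.and hev2
  rw [Metric.eventually_nhds_iff] at hev
  obtain ⟨ε, hε, hev⟩ := hev
  refine ⟨min (ε / 2) (min (s' / 2) (1 / 4)), lt_min (by positivity) (lt_min (by positivity)
    (by norm_num)), ?_⟩
  intro s hs hss B hB hadm hdet
  have hsε : s ≤ ε / 2 := hss.trans (min_le_left _ _)
  have hss' : s ≤ s' / 2 := hss.trans ((min_le_right _ _).trans (min_le_left _ _))
  have hs14 : s ≤ 1 / 4 := hss.trans ((min_le_right _ _).trans (min_le_right _ _))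
  obtain ⟨he1, he2⟩ := hev (y := s) (by rw [dist_zero_right, Real.norm_of_nonneg hs.le]; linarith)
  have hr : 0 < 1 - 2 * s := by linarith
  have hstrict : ∀ z : Fin d → ℤ, z ≠ 0 →
      ∃ S, Pr S ∧ (1 - 2 * s) * cc S < phi S (B *ᵥ cast z) := by
    intro z hz
    obtain ⟨S, hS, hSz⟩ := hadm z hz
    have := hS.one_le_cc
    exact ⟨S, hS, by nlinarith⟩
  have hdlow := det_ge hB hr hstrict
  have hs'1' : s' ≤ 1 := by
    have h3 : (1:ℝ) ≤ ((d : ℝ) + 1) ^ 2 := one_le_pow₀ (by linarith [(Nat.cast_nonneg d : (0:ℝ) ≤ d)])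
    nlinarith
  have hcov := approx_cover hB hr hηcpos (by rw [hηc]; linarith) hstrict (by linarith)
  have h5 : 1 - 2 * s + 4 * ηc ≤ 1 + s' := by
    rw [hηc]; linarith
  -- the lattice
  set Λ : Set (Fin d → ℝ) := {v | ∃ z : Fin d → ℤ, v = B *ᵥ cast z} with hΛ
  have hsub : ∀ u ∈ Λ, ∀ v ∈ Λ, u - v ∈ Λ := by
    rintro u ⟨z, rfl⟩ v ⟨w, rfl⟩
    exact ⟨z - w, by rw [cast_sub, Matrix.mulVec_sub]⟩
  have hc1 : ∀ l ∈ Λ, l ≠ 0 → ∃ S, Pr S ∧ (1 - s') * cc S ≤ phi S l := by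
    rintro l ⟨z, rfl⟩ hl
    have hz : z ≠ 0 := by
      rintro rfl
      apply hl
      have : cast (0 : Fin d → ℤ) = 0 := by funext i; simp
      rw [this, Matrix.mulVec_zero]
    obtain ⟨S, hS, hSz⟩ := hadm z hz
    have := hS.one_le_cc
    exact ⟨S, hS, by nlinarith⟩
  have hc2 : ∀ x, ∃ l ∈ Λ, x - l ∈ Cell d (1 + s') := by
    intro x
    obtain ⟨z, hz⟩ := hcov x
    refine ⟨_, ⟨z, rfl⟩, fun S hS => (hz S hS).trans ?_⟩
    have := cc_nonneg S
    gcongr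
  have hcols : ∀ j : Fin d, ∃ z : Fin d → ℤ, ∀ i : Fin d,
      |(B *ᵥ cast z) i - (1 : Matrix (Fin d) (Fin d) ℝ) i j| ≤ β := by
    intro j
    obtain ⟨l, ⟨z, rfl⟩, hl⟩ := stepE hd hsub hs'pos hs'2 hc1 hc2 (some j)
    refine ⟨z, fun i => ?_⟩
    have := hl i
    rw [e1_some] at this
    exact this.trans hs'1
  choose zc hzc using hcols
  set Z : Matrix (Fin d) (Fin d) ℤ := Matrix.of fun i j => zc j i with hZ
  have hBZ : ∀ i j, (B * Z.map (fun k : ℤ => (k : ℝ))) i j = (B *ᵥ cast (zc j)) i := by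
    intro i j
    simp [Matrix.mul_apply, Matrix.mulVec, dotProduct, hZ]
  have hnear : ∀ i j, |(B * Z.map (fun k : ℤ => (k : ℝ))) i j -
      (1 : Matrix (Fin d) (Fin d) ℝ) i j| ≤ β := by
    intro i j
    rw [hBZ]; exact hzc j i
  refine ⟨Z, ?_, fun i j => (hnear i j).trans hβ2⟩
  have hd1 := hdetn _ (fun i j => (hnear i j).trans hβ3)
  rw [Matrix.det_mul, det_map] at hd1
  have hd2 := abs_le.1 hd1
  have hne : Z.det ≠ 0 := by
    intro h
    rw [h] at hd2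
    simp at hd2
    linarith [hd2.1]
  have hlt : |(Z.det : ℝ)| < 2 := by
    have h6 : |B.det| * |(Z.det : ℝ)| ≤ 5 / 4 := by
      rw [← abs_mul]
      rw [abs_le]
      constructor <;> linarith
    have h7 : 3 / 4 < |B.det| := lt_of_lt_of_le he2 hdlow
    by_contra hcon
    push Not at hcon
    nlinarith
  have hlt' : |Z.det| < 2 := by exact_mod_cast hlt
  rw [Int.isUnit_iff]
  rw [abs_lt] at hlt'
  omega

end Pool.Agent.H617R3
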