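import Mathlib
import Pool.Agent.H617R3.NearI
import Pool.Agent.H617R3.Local

set_option autoImplicit false

namespace Pool.Agent.H617R3

open Matrix Finset MeasureTheory Module Filter
open scoped Pointwise ENNReal Topology
open Pool.Agent.Helper876 (cast cast_apply cast_sub cast_add Near near_mulVec)

variable {d : ℕ}

/-- weights of the cut body -/
noncomputable def wt (ε : ℝ) (S : Finset (Option (Fin d))) : ℝ :=
  if S.card = 2 ∨ S.card + 1 = d then cc S else (1 - ε) * cc S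

/-- the cut body, scaled by `r` -/
def PP (d : ℕ) (ε r : ℝ) : Set (Fin d → ℝ) := {x | ∀ S, Pr S → phi S x ≤ r * wt ε S}

/-- the open version -/
def UU (d : ℕ) (ε r : ℝ) : Set (Fin d → ℝ) := {x | ∀ S, Pr S → phi S x < r * wt ε S}

lemma wt_compl (hd : 1 ≤ d) (ε : ℝ) (S : Finset (Option (Fin d))) : wt ε Sᶜ = wt ε S := by
  unfold wt
  rw [cc_compl]
  have h := Finset.card_add_card_compl S
  rw [Fintype.card_option, Fintype.card_fin] at h
  have : (Sᶜ.card = 2 ∨ Sᶜ.card + 1 = d) ↔ (S.card = 2 ∨ S.card + 1 = d) := by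
    constructor
    · rintro (h1 | h1)
      · right; omega
      · left; omega
    · rintro (h1 | h1)
      · right; omega
      · left; omega
  simp only [this]

lemma wt_le {ε : ℝ} (hε : 0 ≤ ε) (S : Finset (Option (Fin d))) : wt ε S ≤ cc S := by
  unfold wt
  have := cc_nonneg S
  split_ifs
  · exact le_rfl
  · nlinarith

lemma wt_ge {ε : ℝ} (hε : 0 ≤ ε) (S : Finset (Option (Fin d))) : (1 - ε) * cc S ≤ wt ε S := by
  unfold wt
  have := cc_nonneg S
  split_ifs
  · nlinarith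
  · exact le_rfl

lemma norm_le_of_mem_PP (hd : 1 ≤ d) {ε r : ℝ} (hε : 0 ≤ ε) (hr : 0 ≤ r) {x : Fin d → ℝ}
    (hx : x ∈ PP d ε r) : ‖x‖ ≤ 2 * r := by
  have hd1 : (1:ℝ) ≤ d := by exact_mod_cast hd
  rw [pi_norm_le_iff_of_nonneg (by positivity)]
  intro i
  have h0 : ∀ S, Pr S → phi S x ≤ r * cc S := fun S hS =>
    (hx S hS).trans (mul_le_mul_of_nonneg_left (wt_le hε S) hr)
  have h1 := h0 _ (Pr_singleton hd (some i))
  have h2 := h0 _ (Pr_singleton hd (some i)).compl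
  have h3 := h0 _ (Pr_singleton hd none)
  have h4 := h0 _ (Pr_singleton hd none).compl
  rw [phi_compl, cc_compl] at h2 h4
  rw [cc_singleton] at h1 h2 h3 h4
  have h5 := coord_eq x i
  rw [Real.norm_eq_abs, abs_le]
  constructor
  · by_contra hcon
    push Not at hcon
    nlinarith
  · by_contra hcon
    push Not at hcon
    nlinarith

/-- integral version of `ex` -/
def iex (z : Fin d → ℤ) : Option (Fin d) → ℤ := fun o => o.elim 0 z

lemma ex_cast (z : Fin d → ℤ) (o : Option (Fin d)) : ex (cast z) o = (iex z o : ℝ) := by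
  cases o <;> simp [iex]

/-- the top level set of an integral vector -/
lemma top_set {z : Fin d → ℤ} (hz : z ≠ 0) : ∃ S, Pr S ∧ cc S ≤ phi S (cast z) ∧
    (phi S (cast z) < cc S + 1 → z = ind S) := by
  classical
  obtain ⟨a₀, -, hmax⟩ := Finset.exists_max_image (Finset.univ : Finset (Option (Fin d))) (iex z)
    ⟨none, Finset.mem_univ _⟩
  set S : Finset (Option (Fin d)) := Finset.univ.filter fun a => iex z a = iex z a₀ with hS
  have hmem : ∀ a, a ∈ S ↔ iex z a = iex z a₀ := fun a => by simp [hS]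
  have hge : ∀ a ∈ S, ∀ b ∈ Sᶜ, 1 ≤ iex z a - iex z b := by
    intro a ha b hb
    rw [hmem] at ha
    rw [Finset.mem_compl, hmem] at hb
    have := hmax b (Finset.mem_univ _)
    omega
  have hne : Sᶜ.Nonempty := by
    by_contra hcon
    rw [Finset.not_nonempty_iff_eq_empty, Finset.compl_eq_empty_iff] at hcon
    apply hz
    funext i
    have h1 : some i ∈ S := by rw [hcon]; exact Finset.mem_univ _
    have h2 : none ∈ S := by rw [hcon]; exact Finset.mem_univ _
    rw [hmem] at h1 h2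
    have h3 : iex z (some i) = iex z none := h1.trans h2.symm
    exact h3
  have hform : phi S (cast z) - cc S =
      ∑ a ∈ S, ∑ b ∈ Sᶜ, (((iex z a - iex z b - 1 : ℤ)) : ℝ) := by
    rw [phi_eq_sum]
    have : cc S = ∑ _a ∈ S, ∑ _b ∈ Sᶜ, (1:ℝ) := by
      simp only [Finset.sum_const, nsmul_eq_mul]
      rw [card_compl_real]; unfold cc; ring
    rw [this, ← Finset.sum_sub_distrib]
    refine Finset.sum_congr rfl fun a _ => ?_
    rw [← Finset.sum_sub_distrib]
    refine Finset.sum_congr rfl fun b _ => ?_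
    rw [ex_cast, ex_cast]
    push_cast; ring
  have hnn : ∀ a ∈ S, ∀ b ∈ Sᶜ, (0:ℝ) ≤ (((iex z a - iex z b - 1 : ℤ)) : ℝ) := by
    intro a ha b hb
    have := hge a ha b hb
    exact_mod_cast (by omega : 0 ≤ iex z a - iex z b - 1)
  refine ⟨S, ⟨⟨a₀, (hmem a₀).2 rfl⟩, hne⟩, ?_, ?_⟩
  · have : 0 ≤ phi S (cast z) - cc S := by
      rw [hform]
      exact Finset.sum_nonneg fun a ha => Finset.sum_nonneg fun b hb => hnn a ha b hb
    linarith
  · intro hlt
    have hone : ∀ a ∈ S, ∀ b ∈ Sᶜ, iex z a - iex z b = 1 := by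
      intro a ha b hb
      by_contra hcon
      have h1 := hge a ha b hb
      have h2 : (1:ℝ) ≤ (((iex z a - iex z b - 1 : ℤ)) : ℝ) := by
        exact_mod_cast (by omega : 1 ≤ iex z a - iex z b - 1)
      have h3 : (((iex z a - iex z b - 1 : ℤ)) : ℝ) ≤
          ∑ b ∈ Sᶜ, (((iex z a - iex z b - 1 : ℤ)) : ℝ) :=
        Finset.single_le_sum (f := fun b => (((iex z a - iex z b - 1 : ℤ)) : ℝ))
          (fun b hb => hnn a ha b hb) hb
      have h4 : ∑ b ∈ Sᶜ, (((iex z a - iex z b - 1 : ℤ)) : ℝ) ≤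
          ∑ a ∈ S, ∑ b ∈ Sᶜ, (((iex z a - iex z b - 1 : ℤ)) : ℝ) :=
        Finset.single_le_sum (f := fun a => ∑ b ∈ Sᶜ, (((iex z a - iex z b - 1 : ℤ)) : ℝ))
          (fun a ha => Finset.sum_nonneg fun b hb => hnn a ha b hb) ha
      rw [← hform] at h4
      linarith
    obtain ⟨b₀, hb₀⟩ := hne
    have ha₀ : a₀ ∈ S := (hmem a₀).2 rfl
    have hb : ∀ b ∈ Sᶜ, iex z b = iex z a₀ - 1 := fun b hb => by
      have := hone a₀ ha₀ b hb
      omega
    have hval : ∀ a, iex z a = iex z a₀ - 1 + (if a ∈ S then 1 else 0) := by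
      intro a
      by_cases ha : a ∈ S
      · rw [if_pos ha, (hmem a).1 ha]; ring
      · rw [if_neg ha, hb a (by simpa using ha)]; ring
    funext i
    have h1 := hval (some i)
    have h2 := hval none
    have h3 : iex z (some i) = z i := rfl
    have h4 : iex z none = 0 := rfl
    rw [h3] at h1
    rw [h4] at h2
    unfold ind
    omega

lemma phi_ind_le {T S : Finset (Option (Fin d))} (hT : Pr T) (hne : T ≠ S) :
    phi T (cast (ind S)) ≤ cc T - 1 := by
  classical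
  have hform : cc T - phi T (cast (ind S)) =
      ∑ a ∈ T, ∑ b ∈ Tᶜ, (1 - ((if a ∈ S then (1:ℝ) else 0) - (if b ∈ S then 1 else 0))) := by
    rw [phi_eq_sum]
    have : cc T = ∑ _a ∈ T, ∑ _b ∈ Tᶜ, (1:ℝ) := by
      simp only [Finset.sum_const, nsmul_eq_mul]
      rw [card_compl_real]; unfold cc; ring
    rw [this, ← Finset.sum_sub_distrib]
    refine Finset.sum_congr rfl fun a _ => ?_
    rw [← Finset.sum_sub_distrib]
    refine Finset.sum_congr rfl fun b _ => ?_
    rw [ex_ind, ex_ind]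
    ring
  have hnn : ∀ a b : Option (Fin d),
      (0:ℝ) ≤ 1 - ((if a ∈ S then (1:ℝ) else 0) - (if b ∈ S then 1 else 0)) := by
    intro a b
    split_ifs <;> norm_num
  have hex : ∃ a ∈ T, ∃ b ∈ Tᶜ,
      (1:ℝ) ≤ 1 - ((if a ∈ S then (1:ℝ) else 0) - (if b ∈ S then 1 else 0)) := by
    by_cases h : ∃ a ∈ T, a ∉ S
    · obtain ⟨a, ha, haS⟩ := h
      obtain ⟨b, hb⟩ := hT.2
      refine ⟨a, ha, b, hb, ?_⟩
      rw [if_neg haS]
      split_ifs <;> norm_num
    · push Not at h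
      have h2 : ∃ b ∈ S, b ∉ T := by
        by_contra hcon
        push Not at hcon
        exact hne (Finset.Subset.antisymm h hcon)
      obtain ⟨b, hbS, hbT⟩ := h2
      obtain ⟨a, ha⟩ := hT.1
      refine ⟨a, ha, b, by simpa using hbT, ?_⟩
      rw [if_pos hbS]
      split_ifs <;> norm_num
  obtain ⟨a, ha, b, hb, hab⟩ := hex
  have h3 : 1 - ((if a ∈ S then (1:ℝ) else 0) - (if b ∈ S then 1 else 0)) ≤
      ∑ b ∈ Tᶜ, (1 - ((if a ∈ S then (1:ℝ) else 0) - (if b ∈ S then 1 else 0))) :=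
    Finset.single_le_sum (f := fun b => 1 - ((if a ∈ S then (1:ℝ) else 0) - (if b ∈ S then 1 else 0)))
      (fun b _ => hnn a b) hb
  have h4 : ∑ b ∈ Tᶜ, (1 - ((if a ∈ S then (1:ℝ) else 0) - (if b ∈ S then 1 else 0))) ≤
      ∑ a ∈ T, ∑ b ∈ Tᶜ, (1 - ((if a ∈ S then (1:ℝ) else 0) - (if b ∈ S then 1 else 0))) :=
    Finset.single_le_sum
      (f := fun a => ∑ b ∈ Tᶜ, (1 - ((if a ∈ S then (1:ℝ) else 0) - (if b ∈ S then 1 else 0))))
      (fun a _ => Finset.sum_nonneg fun b _ => hnn a b) ha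
  rw [← hform] at h4
  linarith

lemma contact (hd : 1 ≤ d) {ε s η : ℝ} (hε : 0 ≤ ε) (hs0 : 0 ≤ s) (hs1 : s ≤ 1 / 8) (hη : 0 ≤ η)
    (hη1 : (d : ℝ) * η ≤ 1 / 2) (hη2 : s + 16 * (d * η) < ε) (hεn : ε * ((d : ℝ) + 1) ^ 2 ≤ 1)
    {B : Matrix (Fin d) (Fin d) ℝ} (hB : Near η B) {z : Fin d → ℤ}
    (hx : B *ᵥ cast z ∈ PP d ε (1 + s)) :
    z = 0 ∨ ∃ S : Finset (Option (Fin d)), (S.card = 2 ∨ S.card + 1 = d) ∧ z = ind S := by
  by_cases hz : z = 0
  · exact Or.inl hz
  right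
  set x := B *ᵥ cast z with hxdef
  have hxn : ‖x‖ ≤ 2 * (1 + s) := norm_le_of_mem_PP hd hε (by linarith) hx
  have h1 := near_mulVec hη hB (cast z)
  rw [← hxdef] at h1
  have h2 : ‖cast z‖ ≤ 2 * ‖x‖ := by
    have h3 : ‖cast z‖ ≤ ‖x‖ + ‖x - cast z‖ := by
      calc ‖cast z‖ = ‖x - (x - cast z)‖ := by congr 1; abel
        _ ≤ _ := norm_sub_le _ _
    have h4 : d * η * ‖cast z‖ ≤ 1 / 2 * ‖cast z‖ :=
      mul_le_mul_of_nonneg_right hη1 (norm_nonneg _)
    linarith
  have h5 : ‖cast z - x‖ ≤ 8 * (d * η) := by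
    rw [norm_sub_rev]
    have h6 : ‖cast z‖ ≤ 8 := by linarith
    calc ‖x - cast z‖ ≤ d * η * ‖cast z‖ := h1
      _ ≤ d * η * 8 := mul_le_mul_of_nonneg_left h6 (by positivity)
      _ = _ := by ring
  obtain ⟨S, hS, hS1, hS2⟩ := top_set hz
  have hcn := cc_le S
  have hc1 := hS.one_le_cc
  have h7 : phi S (cast z) ≤ (1 + s) * wt ε S + 16 * (d * η) * cc S := by
    have h8 : phi S (cast z) = phi S x + phi S (cast z - x) := by rw [phi_sub]; ring
    have h9 := hx S hS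
    have h10 := phi_le_norm S (cast z - x)
    have h11 : 2 * ‖cast z - x‖ * cc S ≤ 2 * (8 * (d * η)) * cc S := by gcongr
    linarith
  have hdη : 0 ≤ (d:ℝ) * η := by positivity
  have hzS : z = ind S := by
    apply hS2
    have h8 := wt_le hε S
    have h9 : (1 + s) * wt ε S ≤ (1 + s) * cc S := mul_le_mul_of_nonneg_left h8 (by linarith)
    have h10 : (s + 16 * (d * η)) * cc S < ε * cc S := mul_lt_mul_of_pos_right hη2 (by linarith)
    have h11 : ε * cc S ≤ ε * ((d : ℝ) + 1) ^ 2 := mul_le_mul_of_nonneg_left hcn hε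
    linarith
  refine ⟨S, ?_, hzS⟩
  by_contra hcon
  have hw : wt ε S = (1 - ε) * cc S := by
    unfold wt
    rw [if_neg hcon]
  rw [hw] at h7
  have h10 : (s + 16 * (d * η)) * cc S < ε * cc S := mul_lt_mul_of_pos_right hη2 (by linarith)
  have h12 : 0 ≤ s * (ε * cc S) := by positivity
  linarith

lemma norm_ind_le (S : Finset (Option (Fin d))) : ‖cast (ind S)‖ ≤ 1 := by
  rw [pi_norm_le_iff_of_nonneg zero_le_one]
  intro i
  rw [Real.norm_eq_abs, cast_apply]
  unfold ind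
  split_ifs <;> simp

lemma set_constraint {ε s η : ℝ} (hε : 0 ≤ ε) (hs0 : 0 ≤ s) (hs1 : s ≤ 1) (hη : 0 ≤ η)
    (hη1 : 2 * (d * η) * ((d : ℝ) + 1) ^ 2 + (s + ε) * ((d : ℝ) + 1) ^ 2 < 1)
    {B : Matrix (Fin d) (Fin d) ℝ} (hB : Near η B) {S : Finset (Option (Fin d))}
    (hS : S.card = 2)
    (hx : B *ᵥ cast (ind S) ∉ UU d ε (1 - s)) :
    (1 - s) * cc S ≤ phi S (B *ᵥ cast (ind S)) := by
  set x := B *ᵥ cast (ind S) with hxdef
  have h1 := near_mulVec hη hB (cast (ind S))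
  rw [← hxdef] at h1
  have hdη : 0 ≤ (d:ℝ) * η := by positivity
  have h2 : ‖x - cast (ind S)‖ ≤ d * η :=
    h1.trans (by
      calc d * η * ‖cast (ind S)‖ ≤ d * η * 1 :=
            mul_le_mul_of_nonneg_left (norm_ind_le S) hdη
        _ = d * η := mul_one _)
  by_contra hcon
  push Not at hcon
  apply hx
  intro T hT
  by_cases hTS : T = S
  · rw [hTS]
    have : wt ε S = cc S := by
      unfold wt
      rw [if_pos (Or.inl hS)]
    rw [this]; exact hcon
  · have h3 := phi_ind_le hT hTS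
    have h4 : phi T x = phi T (cast (ind S)) + phi T (x - cast (ind S)) := by
      rw [phi_sub]; ring
    have h5 := phi_le_norm T (x - cast (ind S))
    have hc := cc_nonneg T
    have hcn := cc_le T
    have h6 : 2 * ‖x - cast (ind S)‖ * cc T ≤ 2 * (d * η) * ((d : ℝ) + 1) ^ 2 := by gcongr
    have h7 : (1 - s) * ((1 - ε) * cc T) ≤ (1 - s) * wt ε T :=
      mul_le_mul_of_nonneg_left (wt_ge hε T) (by linarith)
    have h8 : (s + ε) * cc T ≤ (s + ε) * ((d : ℝ) + 1) ^ 2 :=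
      mul_le_mul_of_nonneg_left hcn (by linarith)
    have h9 : 0 ≤ s * (ε * cc T) := by positivity
    nlinarith

/-- if `x` is not in `UU ε (1 - s)` then `x` is long. -/
lemma long_of_not_mem {ε s : ℝ} (hs : s ≤ 1) (hε : 0 ≤ ε) {x : Fin d → ℝ}
    (hx : x ∉ UU d ε (1 - s)) : ∃ S, Pr S ∧ ((1 - ε) * (1 - s)) * cc S ≤ phi S x := by
  by_contra hcon
  push Not at hcon
  apply hx
  intro S hS
  have h1 := hcon S hS
  have h2 : (1 - s) * ((1 - ε) * cc S) ≤ (1 - s) * wt ε S :=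
    mul_le_mul_of_nonneg_left (wt_ge hε S) (by linarith)
  linarith

lemma even_sum_ind {S : Finset (Option (Fin d))} (hdo : Odd d)
    (hS : S.card = 2 ∨ S.card + 1 = d) : Even (∑ i, ind S i) := by
  classical
  have hcard : Even S.card := by
    rcases hS with h | h
    · rw [h]; decide
    · obtain ⟨k, hk⟩ := hdo
      exact ⟨k, by omega⟩
  have h1 : ∑ i, ind S i = ∑ a : Option (Fin d), ((if a ∈ S then (1:ℤ) else 0)) -
      (d + 1) * (if none ∈ S then 1 else 0) := by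
    unfold ind
    rw [Fintype.sum_option, Finset.sum_sub_distrib]
    simp
    split_ifs <;> ring
  have h2 : ∑ a : Option (Fin d), ((if a ∈ S then (1:ℤ) else 0)) = S.card := by
    rw [Finset.sum_ite_mem]; simp
  rw [h1, h2]
  have h3 : Even (S.card : ℤ) := by exact_mod_cast hcard
  have h4 : Even ((d:ℤ) + 1) := by
    obtain ⟨k, hk⟩ := hdo
    exact ⟨k + 1, by rw [hk]; push_cast; ring⟩
  exact h3.sub (h4.mul_right _)

end Pool.Agent.H617R3
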