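import Mathlib
import Pool.Agent.H617R3.Cut

set_option autoImplicit false

namespace Pool.Agent.H617R3

open Matrix Finset MeasureTheory Module Filter
open scoped Pointwise ENNReal Topology
open Pool.Agent.Helper876 (cast cast_apply cast_sub cast_add Near near_mulVec isClosed_near
  isBounded_near continuous_mulVec_of continuous_det_of Adm minN IsDens nonempty_ne
  one_le_norm_cast one_le_minN mulVec_map det_map mulVec_ne_zero adm_mul abs_det_mul)

variable {d : ℕ}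

/-- admissibility at the pairs -/
def SAdm (B : Matrix (Fin d) (Fin d) ℝ) : Prop :=
  ∀ S : Finset (Option (Fin d)), S.card = 2 → cc S ≤ phi S (B *ᵥ cast (ind S))

lemma compact_step (d : ℕ) {η₁ η₂ : ℝ} (hη₂ : 0 < η₂)
    (hloc : ∀ B : Matrix (Fin d) (Fin d) ℝ, Near η₁ B → SAdm B →
      1 ≤ B.det ∧ (B.det ≤ 1 → B = 1)) :
    ∃ m : ℝ, 1 < m ∧ ∀ B : Matrix (Fin d) (Fin d) ℝ, Near η₁ B → SAdm B → B.det ≤ m →
      Near η₂ B := by
  set S : Set (Fin d → Fin d → ℝ) := {M | Near η₁ (Matrix.of M)} ∩ ({M | SAdm (Matrix.of M)} ∩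
    {M | ∃ i j, η₂ ≤ |M i j - (1 : Matrix (Fin d) (Fin d) ℝ) i j|}) with hS
  have hSc : IsCompact S := by
    rw [Metric.isCompact_iff_isClosed_bounded]
    refine ⟨(isClosed_near η₁).inter (IsClosed.inter ?_ ?_),
      (isBounded_near η₁).subset Set.inter_subset_left⟩
    · have : {M : Fin d → Fin d → ℝ | SAdm (Matrix.of M)} =
          ⋂ (T : Finset (Option (Fin d))), ⋂ (_ : T.card = 2),
          {M | cc T ≤ phi T (Matrix.of M *ᵥ cast (ind T))} := by
        ext M; simp [SAdm]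
      rw [this]
      refine isClosed_iInter fun T => isClosed_iInter fun _ => ?_
      exact isClosed_le continuous_const ((phi_continuous T).comp (continuous_mulVec_of _))
    · have : {M : Fin d → Fin d → ℝ | ∃ i j, η₂ ≤ |M i j - (1 : Matrix (Fin d) (Fin d) ℝ) i j|} =
          ⋃ i, ⋃ j, {M | η₂ ≤ |M i j - (1 : Matrix (Fin d) (Fin d) ℝ) i j|} := by
        ext M; simp
      rw [this]
      refine isClosed_iUnion_of_finite fun i => isClosed_iUnion_of_finite fun j => ?_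
      exact isClosed_le continuous_const (by fun_prop)
  rcases S.eq_empty_or_nonempty with hemp | hne
  · refine ⟨2, by norm_num, fun B hB hR _ => ?_⟩
    intro i j
    by_contra hcon
    push Not at hcon
    have : (fun i j => B i j) ∈ S := ⟨hB, hR, i, j, hcon.le⟩
    rw [hemp] at this
    exact this
  · obtain ⟨M₀, hM₀, hmin⟩ := hSc.exists_isMinOn hne continuous_det_of.continuousOn
    have h1 := hloc _ hM₀.1 hM₀.2.1
    have h2 : 1 < (Matrix.of M₀).det := by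
      rcases lt_or_eq_of_le h1.1 with h | h
      · exact h
      · exfalso
        have h3 := h1.2 h.ge
        obtain ⟨i, j, hij⟩ := hM₀.2.2
        have h4 : M₀ i j = (1 : Matrix (Fin d) (Fin d) ℝ) i j := by rw [← h3]; rfl
        rw [h4, sub_self, abs_zero] at hij
        linarith
    refine ⟨(1 + (Matrix.of M₀).det) / 2, by linarith, fun B hB hR hdet => ?_⟩
    intro i j
    by_contra hcon
    push Not at hcon
    have h5 : (fun i j => B i j) ∈ S := ⟨hB, hR, i, j, hcon.le⟩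
    have h6 : (Matrix.of M₀).det ≤ B.det := hmin h5
    linarith

/-- The properties of the norm that are used. -/
structure IsG (d : ℕ) (ε s : ℝ) (g : (Fin d → ℝ) → ℝ) : Prop where
  smul : ∀ (c : ℝ) (x : Fin d → ℝ), 0 ≤ c → g (c • x) = c * g x
  cont : Continuous g
  lt_one : ∀ x ∈ UU d ε (1 - s), g x < 1
  le_one : ∀ x, g x ≤ 1 → x ∈ PP d ε (1 + s)
  nneg : 0 ≤ ε

section

variable {ε s : ℝ} {g : (Fin d → ℝ) → ℝ}

lemma IsG.norm_le (hg : IsG d ε s g) (hd : 1 ≤ d) (hs : 0 ≤ s) (x : Fin d → ℝ) :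
    ‖x‖ ≤ 2 * (1 + s) * g x := by
  have key : ∀ t : ℝ, 0 < t → g x ≤ t → ‖x‖ ≤ 2 * (1 + s) * t := by
    intro t ht hgt
    have h1 : g (t⁻¹ • x) ≤ 1 := by
      rw [hg.smul _ _ (inv_nonneg.2 ht.le), inv_mul_le_iff₀ ht, mul_one]
      exact hgt
    have h2 : ‖t⁻¹ • x‖ ≤ 2 * (1 + s) :=
      norm_le_of_mem_PP hd hg.nneg (by linarith) (hg.le_one _ h1)
    rw [norm_smul, norm_inv, Real.norm_of_nonneg ht.le, inv_mul_le_iff₀ ht] at h2
    linarith
  rcases lt_or_ge 0 (g x) with h | h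
  · exact key _ h le_rfl
  · have h0 : ‖x‖ ≤ 0 := by
      by_contra hcon
      push Not at hcon
      have h2s : 0 < 2 * (1 + s) := by linarith
      have := key (‖x‖ / (2 * (2 * (1 + s)))) (by positivity) (h.trans (by positivity))
      have h3 : 2 * (1 + s) * (‖x‖ / (2 * (2 * (1 + s)))) = ‖x‖ / 2 := by
        field_simp
      rw [h3] at this
      linarith
    have hx : x = 0 := norm_le_zero_iff.1 h0
    have hg0 : g x = 0 := by
      have := hg.smul 0 x le_rfl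
      rw [zero_smul, zero_mul] at this
      rw [hx]; exact this
    rw [hg0, hx]; simp

lemma IsG.nonneg (hg : IsG d ε s g) (hd : 1 ≤ d) (hs : 0 ≤ s) (x : Fin d → ℝ) : 0 ≤ g x := by
  have h1 := hg.norm_le hd hs x
  have h2 := norm_nonneg x
  by_contra hcon
  push Not at hcon
  nlinarith

lemma bddBelow (hg : IsG d ε s g) (hd : 1 ≤ d) (hs : 0 ≤ s) (B : Matrix (Fin d) (Fin d) ℝ) :
    BddBelow (Set.range fun z : {z : Fin d → ℤ // z ≠ 0} => g (B *ᵥ cast z.1)) :=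
  ⟨0, by rintro _ ⟨z, rfl⟩; exact hg.nonneg hd hs _⟩

lemma minN_le (hg : IsG d ε s g) (hd : 1 ≤ d) (hs : 0 ≤ s) (B : Matrix (Fin d) (Fin d) ℝ)
    {z : Fin d → ℤ}
    (hz : z ≠ 0) : minN g B ≤ g (B *ᵥ cast z) :=
  ciInf_le (bddBelow hg hd hs B) (⟨z, hz⟩ : {z : Fin d → ℤ // z ≠ 0})

lemma minN_pos (hg : IsG d ε s g) (hs : 0 ≤ s) (hd : 1 ≤ d) {B : Matrix (Fin d) (Fin d) ℝ}
    (hB : B.det ≠ 0) : 0 < minN g B := by
  have hne := nonempty_ne hd
  have hBu : IsUnit B.det := isUnit_iff_ne_zero.2 hB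
  set C : ℝ := ‖(Matrix.toLin' B⁻¹).toContinuousLinearMap‖ with hC
  have hC0 : 0 ≤ C := norm_nonneg _
  have h1 : ∀ z : Fin d → ℤ, z ≠ 0 → 1 ≤ (C + 1) * ‖B *ᵥ cast z‖ := by
    intro z hz
    have h2 := (Matrix.toLin' B⁻¹).toContinuousLinearMap.le_opNorm (B *ᵥ cast z)
    have h3 : (Matrix.toLin' B⁻¹).toContinuousLinearMap (B *ᵥ cast z) = cast z := by
      show (Matrix.toLin' B⁻¹) (B *ᵥ cast z) = cast z
      rw [Matrix.toLin'_apply, Matrix.mulVec_mulVec, Matrix.nonsing_inv_mul _ hBu,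
        Matrix.one_mulVec]
    rw [h3] at h2
    have h4 := one_le_norm_cast hz
    have h5 := norm_nonneg (B *ᵥ cast z)
    nlinarith
  have hpos : 0 < 1 / (2 * (1 + s) * (C + 1)) := by positivity
  refine lt_of_lt_of_le hpos ?_
  refine le_ciInf fun z => ?_
  have h6 := h1 z.1 z.2
  have h7 := hg.norm_le hd hs (B *ᵥ cast z.1)
  rw [div_le_iff₀ (by positivity)]
  calc 1 ≤ (C + 1) * ‖B *ᵥ cast z.1‖ := h6
    _ ≤ (C + 1) * (2 * (1 + s) * g (B *ᵥ cast z.1)) := by gcongr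
    _ = _ := by ring

lemma minN_smul (hg : IsG d ε s g) {c : ℝ} (hc : 0 ≤ c) (B : Matrix (Fin d) (Fin d) ℝ) :
    minN g (c • B) = c * minN g B := by
  unfold minN
  rw [Real.mul_iInf_of_nonneg hc]
  congr 1
  funext z
  rw [Matrix.smul_mulVec, hg.smul _ _ hc]

lemma adm_normalise (hg : IsG d ε s g) (hs : 0 ≤ s) (hd : 1 ≤ d) {B : Matrix (Fin d) (Fin d) ℝ}
    (hB : B.det ≠ 0) : Adm g ((minN g B)⁻¹ • B) := by
  intro z hz
  have hpos := minN_pos hg hs hd hB
  rw [Matrix.smul_mulVec, hg.smul _ _ (inv_nonneg.2 hpos.le), le_inv_mul_iff₀ hpos, mul_one]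
  exact minN_le hg hd hs B hz

lemma det_normalise (hg : IsG d ε s g) (hs : 0 ≤ s) (hd : 1 ≤ d) {B : Matrix (Fin d) (Fin d) ℝ}
    (hB : B.det ≠ 0) : minN g B ^ d / |B.det| = 1 / |((minN g B)⁻¹ • B).det| := by
  have hpos := minN_pos hg hs hd hB
  rw [Matrix.det_smul, Fintype.card_fin, abs_mul, abs_of_pos (pow_pos (inv_pos.2 hpos) d)]
  have : |B.det| ≠ 0 := abs_ne_zero.2 hB
  have h2 : minN g B ^ d ≠ 0 := (pow_pos hpos d).ne'
  rw [inv_pow]
  field_simp

/-- a densest lattice, normalised, has determinant at most that of any admissible lattice -/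
lemma dens_det_le (hg : IsG d ε s g) (hs : 0 ≤ s) (hd : 1 ≤ d) {B B' : Matrix (Fin d) (Fin d) ℝ}
    (hB : IsDens g B) (hB' : B'.det ≠ 0) (hadm : Adm g B') :
    |((minN g B)⁻¹ • B).det| ≤ |B'.det| := by
  have h1 := hB.2 B' hB'
  rw [det_normalise hg hs hd hB.1] at h1
  have hpos := minN_pos hg hs hd hB.1
  have h2 : 1 / |B'.det| ≤ minN g B' ^ d / |B'.det| := by
    gcongr
    exact one_le_pow₀ (one_le_minN hd hadm)
  have h3 : ((minN g B)⁻¹ • B).det ≠ 0 := by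
    rw [Matrix.det_smul]
    exact mul_ne_zero (pow_ne_zero _ (inv_ne_zero hpos.ne')) hB.1
  have h4 : 0 < |((minN g B)⁻¹ • B).det| := abs_pos.2 h3
  have h5 : 0 < |B'.det| := abs_pos.2 hB'
  exact (one_div_le_one_div h5 h4).1 (h2.trans h1)

lemma isDens_of_min (hg : IsG d ε s g) (hs : 0 ≤ s) (hd : 1 ≤ d) {B : Matrix (Fin d) (Fin d) ℝ}
    (hB : B.det ≠ 0) (hadm : Adm g B)
    (hmin : ∀ B' : Matrix (Fin d) (Fin d) ℝ, B'.det ≠ 0 → Adm g B' → |B.det| ≤ |B'.det|) :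
    IsDens g B := by
  refine ⟨hB, fun B' hB' => ?_⟩
  have hpos := minN_pos hg hs hd hB'
  have h3 : ((minN g B')⁻¹ • B').det ≠ 0 := by
    rw [Matrix.det_smul]
    exact mul_ne_zero (pow_ne_zero _ (inv_ne_zero hpos.ne')) hB'
  rw [det_normalise hg hs hd hB']
  have h1 := hmin _ h3 (adm_normalise hg hs hd hB')
  have h5 : 0 < |B.det| := abs_pos.2 hB
  calc 1 / |((minN g B')⁻¹ • B').det| ≤ 1 / |B.det| := one_div_le_one_div_of_le h5 h1
    _ ≤ minN g B ^ d / |B.det| := by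
        gcongr
        exact one_le_pow₀ (one_le_minN hd hadm)

/-- the standard lattice, slightly enlarged, is admissible -/
lemma adm_one (hg : IsG d ε s g) (hd : 1 ≤ d) (hs : 0 ≤ s) :
    Adm g ((1 + s) • (1 : Matrix (Fin d) (Fin d) ℝ)) := by
  intro z hz
  rw [Matrix.smul_mulVec, Matrix.one_mulVec]
  obtain ⟨S, hS, hS1, -⟩ := top_set hz
  by_contra hcon
  push Not at hcon
  set γ := g ((1 + s) • cast z) with hγ
  have hγ0 : 0 ≤ γ := hg.nonneg hd hs _
  set c : ℝ := (1 + γ) / 2 with hc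
  have hc0 : 0 < c := by rw [hc]; linarith
  have hc1 : c < 1 := by rw [hc]; linarith
  have hγc : γ ≤ c := by rw [hc]; linarith
  have h1 : g (c⁻¹ • ((1 + s) • cast z)) ≤ 1 := by
    rw [hg.smul _ _ (inv_nonneg.2 hc0.le), inv_mul_le_iff₀ hc0, mul_one]
    exact hγc
  have h2 := (hg.le_one _ h1) S hS
  have h3 := wt_le hg.nneg S
  have hcS := hS.one_le_cc
  rw [phi_smul, phi_smul, inv_mul_le_iff₀ hc0] at h2
  have h4 : c * ((1 + s) * wt ε S) ≤ c * ((1 + s) * cc S) := by gcongr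
  have h5 : (1 + s) * cc S ≤ (1 + s) * phi S (cast z) := by gcongr
  have h6 : c * ((1 + s) * cc S) < 1 * ((1 + s) * cc S) :=
    mul_lt_mul_of_pos_right hc1 (by positivity)
  linarith

end

end Pool.Agent.H617R3
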