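import Mathlib
import Pool.Agent.H617R3.Glob

set_option autoImplicit false

namespace Pool.Agent.H617R3

open Matrix Finset MeasureTheory Module Filter
open scoped Pointwise ENNReal Topology
open Pool.Agent.Helper876 (cast cast_apply cast_sub cast_add Near near_mulVec isClosed_near
  isBounded_near continuous_mulVec_of continuous_det_of Adm minN IsDens nonempty_ne
  one_le_norm_cast one_le_minN mulVec_map det_map mulVec_ne_zero adm_mul abs_det_mul det_near)

variable {d : ℕ}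

lemma ind_ne_zero (hd : 4 ≤ d) {S : Finset (Option (Fin d))} (hS : S.card = 2) : ind S ≠ 0 := by
  intro h
  have h1 := phi_ind_self S
  have h2 : cast (ind S) = 0 := by rw [h]; funext i; simp
  rw [h2, phi_zero] at h1
  unfold cc at h1
  rw [hS] at h1
  have hd4 : (4:ℝ) ≤ d := by exact_mod_cast hd
  push_cast at h1
  linarith

theorem abstract_main (d : ℕ) (hd4 : 4 ≤ d) (hdo : Odd d) :
    ∃ ε s : ℝ, 0 < ε ∧ ε ≤ 1 / 4 ∧ 0 < s ∧ s ≤ 1 / 8 ∧
    ∀ g : (Fin d → ℝ) → ℝ, IsG d ε s g → (∃ B, IsDens g B) ∧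
      ∀ B, IsDens g B → ∃ χ : (Fin d → ℤ) →+ ℤ, (∃ z, χ z = 1) ∧
        ∀ z : Fin d → ℤ, g (B *ᵥ cast z) ≤ minN g B → Even (χ z) := by
  have hd : 1 ≤ d := by omega
  have hdr : (4:ℝ) ≤ d := by exact_mod_cast hd4
  obtain ⟨ηl, hηl, hloc0⟩ := local_lemma d hd4
  have hloc : ∀ B : Matrix (Fin d) (Fin d) ℝ, Near ηl B → SAdm B →
      1 ≤ B.det ∧ (B.det ≤ 1 → B = 1) := fun B hB hR => hloc0 B hB hR
  obtain ⟨ηd, hηd, hdetn⟩ := det_near d (κ := 1 / 2) (by norm_num)
  set n : ℝ := (d:ℝ) + 1 with hn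
  have hn1 : 5 ≤ n := by rw [hn]; linarith
  set D : ℝ := 64 * n ^ 3 with hD
  have hDpos : 0 < D := by positivity
  set ηA : ℝ := min (ηl / 2) (min (1 / D) ηd) with hηA
  have hηApos : 0 < ηA := lt_min (by positivity) (lt_min (by positivity) hηd)
  have hηA1 : ηA ≤ ηl / 2 := min_le_left _ _
  have hηA2 : ηA ≤ 1 / D := (min_le_right _ _).trans (min_le_left _ _)
  have hηA3 : ηA ≤ ηd := (min_le_right _ _).trans (min_le_right _ _)
  have hηA4 : 2 * ((d:ℝ) * ηA) * n ^ 2 ≤ 1 / 32 := by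
    have h1 : ηA * D ≤ 1 := by rwa [le_div_iff₀ hDpos] at hηA2
    have h2 : (d:ℝ) * (ηA * n ^ 2) ≤ n * (ηA * n ^ 2) := by
      apply mul_le_mul_of_nonneg_right _ (by positivity)
      rw [hn]; linarith
    have h3 : n * (ηA * n ^ 2) = ηA * n ^ 3 := by ring
    rw [hD] at h1
    linarith
  obtain ⟨s₀, hs₀, hnear⟩ := near_I d hd hηApos
  set ε : ℝ := min (1 / (8 * n ^ 2)) (s₀ / 4) with hε
  have hεpos : 0 < ε := lt_min (by positivity) (by positivity)
  have hε1 : ε ≤ 1 / (8 * n ^ 2) := min_le_left _ _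
  have hε2 : ε ≤ s₀ / 4 := min_le_right _ _
  have hεn : ε * n ^ 2 ≤ 1 / 8 := by
    rw [le_div_iff₀ (by positivity)] at hε1
    linarith
  have hε4 : ε ≤ 1 / 4 := by
    have : (25:ℝ) ≤ n ^ 2 := by nlinarith
    nlinarith
  set ηc : ℝ := ε / (64 * n) with hηc
  have hηcpos : 0 < ηc := by positivity
  have hηc1 : 16 * ((d:ℝ) * ηc) ≤ ε / 4 := by
    have h1 : ηc * (64 * n) = ε := by rw [hηc]; field_simp
    have h2 : (d:ℝ) * ηc ≤ n * ηc := by
      apply mul_le_mul_of_nonneg_right _ hηcpos.le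
      rw [hn]; linarith
    linarith
  have hηcε : ηc ≤ ε := by
    rw [hηc, div_le_iff₀ (by positivity)]
    nlinarith
  obtain ⟨m, hm1, hm⟩ := compact_step d (η₁ := ηl) (η₂ := ηc / 2) (by positivity) hloc
  -- choose `s`
  have hev : ∀ᶠ s : ℝ in 𝓝 0, ((1 + s) / (1 - s)) ^ d < m := by
    apply ContinuousAt.eventually_lt _ continuousAt_const
    · simpa using hm1
    · have : ContinuousAt (fun s : ℝ => (1 + s) / (1 - s)) 0 :=
        ContinuousAt.div (by fun_prop) (by fun_prop) (by norm_num)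
      exact this.pow d
  rw [Metric.eventually_nhds_iff] at hev
  obtain ⟨εm, hεm, hev⟩ := hev
  obtain ⟨s, hspos, hs1, hs2, hs3, hs4, hs5, hs6, hs7⟩ : ∃ s : ℝ, 0 < s ∧ s ≤ 1 / 8 ∧ s ≤ s₀ / 4 ∧
      s ≤ ε / 4 ∧ s ≤ ηc / 2 ∧ s ≤ ηl / 8 ∧ s ≤ ηA ∧ s < εm := by
    set t := min (1 / 8) (min (s₀ / 4) (min (ε / 4) (min (ηc / 2) (min (ηl / 8) (min ηA (εm / 2))))))
      with ht
    have htpos : 0 < t := by
      refine lt_min (by norm_num) (lt_min (by positivity) (lt_min (by positivity)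
        (lt_min (by positivity) (lt_min (by positivity) (lt_min hηApos (by positivity))))))
    have h1 : t ≤ 1 / 8 := min_le_left _ _
    have h1' := min_le_right (1 / 8) (min (s₀ / 4) (min (ε / 4) (min (ηc / 2) (min (ηl / 8)
      (min ηA (εm / 2))))))
    have h2' := min_le_right (s₀ / 4) (min (ε / 4) (min (ηc / 2) (min (ηl / 8)
      (min ηA (εm / 2)))))
    have h3' := min_le_right (ε / 4) (min (ηc / 2) (min (ηl / 8) (min ηA (εm / 2))))
    have h4' := min_le_right (ηc / 2) (min (ηl / 8) (min ηA (εm / 2)))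
    have h5' := min_le_right (ηl / 8) (min ηA (εm / 2))
    have h2 := min_le_left (s₀ / 4) (min (ε / 4) (min (ηc / 2) (min (ηl / 8)
      (min ηA (εm / 2)))))
    have h3 := min_le_left (ε / 4) (min (ηc / 2) (min (ηl / 8) (min ηA (εm / 2))))
    have h4 := min_le_left (ηc / 2) (min (ηl / 8) (min ηA (εm / 2)))
    have h5 := min_le_left (ηl / 8) (min ηA (εm / 2))
    have h6 := min_le_left ηA (εm / 2)
    have h7 := min_le_right ηA (εm / 2)
    refine ⟨t, htpos, h1, ?_, ?_, ?_, ?_, ?_, ?_⟩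
    · linarith
    · linarith
    · linarith
    · linarith
    · linarith
    · linarith
  have hsn : (s + ε) * n ^ 2 ≤ 1 / 4 := by nlinarith [sq_nonneg n]
  have hsm : ((1 + s) / (1 - s)) ^ d ≤ m :=
    (hev (y := s) (by rw [dist_zero_right, Real.norm_of_nonneg hspos.le]; exact hs7)).le
  refine ⟨ε, s, hεpos, hε4, hspos, hs1, ?_⟩
  intro g hg
  have h1s : 0 < 1 - s := by linarith
  -- the reduction
  have hR : ∀ B : Matrix (Fin d) (Fin d) ℝ, B.det ≠ 0 → Adm g B → |B.det| ≤ (1 + s) ^ d →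
      ∃ Z : Matrix (Fin d) (Fin d) ℤ, IsUnit Z.det ∧ Near ηA (B * Z.map (fun k : ℤ => (k : ℝ))) ∧
        Near ηc (B * Z.map (fun k : ℤ => (k : ℝ))) := by
    intro B hB hadm hdet
    have hnotU : ∀ B' : Matrix (Fin d) (Fin d) ℝ, Adm g B' → ∀ z : Fin d → ℤ, z ≠ 0 →
        B' *ᵥ cast z ∉ UU d ε (1 - s) := by
      intro B' hB' z hz hmem
      have h1 := hg.lt_one _ hmem
      have h2 := hB' z hz
      linarith
    obtain ⟨Z, hZ, hZn⟩ := hnear s₀ hs₀ le_rfl B hB (by
      intro z hz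
      obtain ⟨S, hS, hab⟩ := long_of_not_mem (by linarith) hεpos.le (hnotU B hadm z hz)
      refine ⟨S, hS, le_trans ?_ hab⟩
      apply mul_le_mul_of_nonneg_right _ (cc_nonneg S)
      nlinarith [mul_pos hεpos hspos]) (hdet.trans (by gcongr; linarith))
    refine ⟨Z, hZ, hZn, ?_⟩
    set B' := B * Z.map (fun k : ℤ => (k : ℝ)) with hB'
    have hadm' : Adm g B' := adm_mul hadm hZ
    have hroot : ∀ S : Finset (Option (Fin d)), S.card = 2 →
        (1 - s) * cc S ≤ phi S (B' *ᵥ cast (ind S)) := by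
      intro S hS
      exact set_constraint hεpos.le hspos.le (by linarith) hηApos.le (by linarith) hZn hS
        (hnotU B' hadm' _ (ind_ne_zero hd4 hS))
    -- rescale
    have hRA : SAdm ((1 - s)⁻¹ • B') := by
      intro S hS
      rw [Matrix.smul_mulVec, phi_smul, le_inv_mul_iff₀ h1s]
      exact hroot S hS
    have hinv : (1 - s)⁻¹ ≤ 8 / 7 := by
      rw [inv_le_comm₀ h1s (by norm_num)]
      linarith
    have hinv0 : 0 < (1 - s)⁻¹ := inv_pos.2 h1s
    have hone : ∀ i j : Fin d, |(1 : Matrix (Fin d) (Fin d) ℝ) i j| ≤ 1 := by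
      intro i j
      rw [Matrix.one_apply]; split_ifs <;> simp
    have hnl : Near ηl ((1 - s)⁻¹ • B') := by
      intro i j
      have h1 : ((1 - s)⁻¹ • B') i j - (1 : Matrix (Fin d) (Fin d) ℝ) i j =
          (1 - s)⁻¹ * ((B' i j - (1 : Matrix (Fin d) (Fin d) ℝ) i j) +
            s * (1 : Matrix (Fin d) (Fin d) ℝ) i j) := by
        rw [Matrix.smul_apply, smul_eq_mul]
        field_simp
        ring
      rw [h1, abs_mul, abs_of_pos hinv0]
      have h2 : |(B' i j - (1 : Matrix (Fin d) (Fin d) ℝ) i j) +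
            s * (1 : Matrix (Fin d) (Fin d) ℝ) i j| ≤ ηl / 2 + ηl / 8 := by
        calc _ ≤ |B' i j - (1 : Matrix (Fin d) (Fin d) ℝ) i j| +
              |s * (1 : Matrix (Fin d) (Fin d) ℝ) i j| := abs_add_le _ _
          _ ≤ _ := by
              rw [abs_mul, abs_of_pos hspos]
              have h3 := hZn i j
              have h4 := hone i j
              have h5 : s * |(1 : Matrix (Fin d) (Fin d) ℝ) i j| ≤ s * 1 := by gcongr
              linarith
      calc (1 - s)⁻¹ * _ ≤ 8 / 7 * (ηl / 2 + ηl / 8) := by gcongr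
        _ ≤ ηl := by linarith
    have hdet' : ((1 - s)⁻¹ • B').det ≤ m := by
      rw [Matrix.det_smul, Fintype.card_fin]
      have h1 : |B'.det| = |B.det| := abs_det_mul hZ
      have h2 : B'.det ≤ (1 + s) ^ d := by
        calc B'.det ≤ |B'.det| := le_abs_self _
          _ = |B.det| := h1
          _ ≤ _ := hdet
      calc (1 - s)⁻¹ ^ d * B'.det ≤ (1 - s)⁻¹ ^ d * (1 + s) ^ d := by gcongr
        _ = ((1 + s) / (1 - s)) ^ d := by
            rw [← mul_pow]; congr 1; field_simp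
        _ ≤ m := hsm
    have hfin := hm _ hnl hRA hdet'
    intro i j
    have h1 : B' i j - (1 : Matrix (Fin d) (Fin d) ℝ) i j =
        (1 - s) * (((1 - s)⁻¹ • B') i j - (1 : Matrix (Fin d) (Fin d) ℝ) i j) -
          s * (1 : Matrix (Fin d) (Fin d) ℝ) i j := by
      rw [Matrix.smul_apply, smul_eq_mul]
      field_simp
      ring
    rw [h1]
    calc |(1 - s) * (((1 - s)⁻¹ • B') i j - (1 : Matrix (Fin d) (Fin d) ℝ) i j) -
          s * (1 : Matrix (Fin d) (Fin d) ℝ) i j|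
        ≤ |(1 - s) * (((1 - s)⁻¹ • B') i j - (1 : Matrix (Fin d) (Fin d) ℝ) i j)| +
          |s * (1 : Matrix (Fin d) (Fin d) ℝ) i j| := abs_sub _ _
      _ ≤ 1 * (ηc / 2) + s * 1 := by
          rw [abs_mul, abs_mul, abs_of_pos h1s, abs_of_pos hspos]
          have h3 := hfin i j
          have h4 := hone i j
          gcongr
          linarith
      _ ≤ ηc := by linarith
  have hIadm : Adm g ((1 + s) • (1 : Matrix (Fin d) (Fin d) ℝ)) := adm_one hg hd hspos.le
  have hIdet : ((1 + s) • (1 : Matrix (Fin d) (Fin d) ℝ)).det = (1 + s) ^ d := by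
    rw [Matrix.det_smul, Matrix.det_one, Fintype.card_fin, mul_one]
  have hIdet0 : ((1 + s) • (1 : Matrix (Fin d) (Fin d) ℝ)).det ≠ 0 := by
    rw [hIdet]; positivity
  constructor
  · -- existence of a densest lattice
    set S : Set (Fin d → Fin d → ℝ) := {M | Near ηA (Matrix.of M)} ∩ {M | Adm g (Matrix.of M)}
      with hS
    have hSc : IsCompact S := by
      rw [Metric.isCompact_iff_isClosed_bounded]
      refine ⟨(isClosed_near ηA).inter ?_, (isBounded_near ηA).subset Set.inter_subset_left⟩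
      have : {M : Fin d → Fin d → ℝ | Adm g (Matrix.of M)} = ⋂ (z : Fin d → ℤ), ⋂ (_ : z ≠ 0),
          {M | 1 ≤ g (Matrix.of M *ᵥ cast z)} := by
        ext M; simp [Adm]
      rw [this]
      refine isClosed_iInter fun z => isClosed_iInter fun _ => ?_
      exact isClosed_le continuous_const (hg.cont.comp (continuous_mulVec_of _))
    have hIS : (fun i j => ((1 + s) • (1 : Matrix (Fin d) (Fin d) ℝ)) i j) ∈ S := by
      refine ⟨?_, hIadm⟩
      intro i j
      have h1 : (Matrix.of fun i j => ((1 + s) • (1 : Matrix (Fin d) (Fin d) ℝ)) i j) i j -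
          (1 : Matrix (Fin d) (Fin d) ℝ) i j = s * (1 : Matrix (Fin d) (Fin d) ℝ) i j := by
        rw [Matrix.of_apply, Matrix.smul_apply, smul_eq_mul]; ring
      rw [h1, abs_mul, abs_of_pos hspos]
      have h2 : |(1 : Matrix (Fin d) (Fin d) ℝ) i j| ≤ 1 := by
        rw [Matrix.one_apply]; split_ifs <;> simp
      calc s * |(1 : Matrix (Fin d) (Fin d) ℝ) i j| ≤ s * 1 := by gcongr
        _ ≤ ηA := by linarith
    obtain ⟨M₀, hM₀, hmin⟩ := hSc.exists_isMinOn ⟨_, hIS⟩ continuous_det_of.continuousOn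
    have hpos : ∀ B : Matrix (Fin d) (Fin d) ℝ, Near ηA B → 0 < B.det := by
      intro B hB
      have := abs_le.1 (hdetn B (fun i j => (hB i j).trans hηA3))
      linarith [this.1]
    have hM₀pos := hpos _ hM₀.1
    refine ⟨Matrix.of M₀, isDens_of_min hg hspos.le hd hM₀pos.ne' hM₀.2 ?_⟩
    intro B' hB' hadm'
    rw [abs_of_pos hM₀pos]
    rcases le_or_gt |B'.det| ((1 + s) ^ d) with h | h
    · obtain ⟨Z, hZ, hZn, -⟩ := hR B' hB' hadm' h
      have h1 := abs_det_mul (B := B') hZ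
      have h2 : (fun i j => (B' * Z.map (fun k : ℤ => (k : ℝ))) i j) ∈ S :=
        ⟨hZn, adm_mul hadm' hZ⟩
      have h3 : (Matrix.of M₀).det ≤ (B' * Z.map (fun k : ℤ => (k : ℝ))).det := hmin h2
      rw [← h1]
      exact h3.trans (le_abs_self _)
    · have h3 : (Matrix.of M₀).det ≤ ((1 + s) • (1 : Matrix (Fin d) (Fin d) ℝ)).det := hmin hIS
      rw [hIdet] at h3
      linarith
  · -- contacts
    intro B hB
    have hlam := minN_pos hg hspos.le hd hB.1
    set lam := minN g B with hlamdef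
    have hdet1 : |(lam⁻¹ • B).det| ≤ (1 + s) ^ d := by
      have := dens_det_le hg hspos.le hd hB hIdet0 hIadm
      rwa [hIdet, abs_of_pos (by positivity : (0:ℝ) < (1 + s) ^ d)] at this
    have hdet0 : (lam⁻¹ • B).det ≠ 0 := by
      rw [Matrix.det_smul]
      exact mul_ne_zero (pow_ne_zero _ (inv_ne_zero hlam.ne')) hB.1
    obtain ⟨Z, hZ, -, hZc⟩ := hR _ hdet0 (adm_normalise hg hspos.le hd hB.1) hdet1
    set B' := (lam⁻¹ • B) * Z.map (fun k : ℤ => (k : ℝ)) with hB'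
    have hZZ : ∀ z : Fin d → ℤ, Z *ᵥ (Z⁻¹ *ᵥ z) = z := by
      intro z
      rw [Matrix.mulVec_mulVec, Matrix.mul_nonsing_inv _ hZ, Matrix.one_mulVec]
    have hZZ' : ∀ z : Fin d → ℤ, Z⁻¹ *ᵥ (Z *ᵥ z) = z := by
      intro z
      rw [Matrix.mulVec_mulVec, Matrix.nonsing_inv_mul _ hZ, Matrix.one_mulVec]
    let χ : (Fin d → ℤ) →+ ℤ :=
      { toFun := fun z => ∑ i, (Z⁻¹ *ᵥ z) i
        map_zero' := by simp
        map_add' := by
          intro x y
          rw [Matrix.mulVec_add, ← Finset.sum_add_distrib]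
          rfl }
    refine ⟨χ, ⟨Z *ᵥ Pi.single ⟨0, hd⟩ 1, ?_⟩, ?_⟩
    · show ∑ i, (Z⁻¹ *ᵥ (Z *ᵥ Pi.single ⟨0, hd⟩ 1)) i = 1
      rw [hZZ']
      simp
    · intro z hz
      show Even (∑ i, (Z⁻¹ *ᵥ z) i)
      have hval : B' *ᵥ cast (Z⁻¹ *ᵥ z) = lam⁻¹ • (B *ᵥ cast z) := by
        rw [hB', mulVec_map, hZZ, Matrix.smul_mulVec]
      have hmem : B' *ᵥ cast (Z⁻¹ *ᵥ z) ∈ PP d ε (1 + s) := by
        rw [hval]
        apply hg.le_one
        rw [hg.smul _ _ (inv_nonneg.2 hlam.le), inv_mul_le_iff₀ hlam, mul_one]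
        exact hz
      rcases contact (B := B') (η := ηc) hd hεpos.le hspos.le hs1 hηcpos.le (by linarith)
        (by linarith) (by linarith) hZc hmem with h0 | ⟨S, hS, hSz⟩
      · rw [h0]; simp
      · rw [hSz]; exact even_sum_ind hdo hS

end Pool.Agent.H617R3
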