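import Mathlib
import Pool.Agent.H617R3.GlobMain

set_option autoImplicit false

namespace Pool.Agent.H617R3

open Matrix Finset MeasureTheory Module Filter
open scoped Pointwise ENNReal Topology
open Pool.Agent.Helper876 (cast cast_apply cast_sub cast_add)

variable {d : ℕ}

lemma PP_closed (ε r : ℝ) : IsClosed (PP d ε r) := by
  have : PP d ε r = ⋂ S, ⋂ (_ : Pr S), {x | phi S x ≤ r * wt ε S} := by
    ext x; simp [PP]
  rw [this]
  refine isClosed_iInter fun S => isClosed_iInter fun _ => ?_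
  exact isClosed_le (phi_continuous S) continuous_const

lemma UU_open (ε r : ℝ) : IsOpen (UU d ε r) := by
  have : UU d ε r = ⋂ S, ⋂ (_ : Pr S), {x | phi S x < r * wt ε S} := by
    ext x; simp [UU]
  rw [this]
  refine isOpen_iInter_of_finite fun S => isOpen_iInter_of_finite fun _ => ?_
  exact isOpen_lt (phi_continuous S) continuous_const

lemma UU_sub_PP (ε r : ℝ) : UU d ε r ⊆ PP d ε r := fun _ hx S hS => (hx S hS).le

lemma smul_mem_PP {ε r c : ℝ} (hc : 0 ≤ c) {x : Fin d → ℝ} (hx : x ∈ PP d ε r) :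
    c • x ∈ PP d ε (c * r) := by
  intro S hS
  rw [phi_smul]
  have := mul_le_mul_of_nonneg_left (hx S hS) hc
  linarith

lemma PP_symm (hd : 1 ≤ d) {ε r : ℝ} {x : Fin d → ℝ} (hx : x ∈ PP d ε r) : -x ∈ PP d ε r := by
  intro S hS
  have := hx Sᶜ hS.compl
  rw [phi_compl, wt_compl hd] at this
  rw [phi_neg]
  exact this

lemma PP_convex (ε r : ℝ) : Convex ℝ (PP d ε r) := by
  intro x hx y hy a b ha hb hab S hS
  rw [phi_add, phi_smul, phi_smul]
  have h1 := mul_le_mul_of_nonneg_left (hx S hS) ha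
  have h2 := mul_le_mul_of_nonneg_left (hy S hS) hb
  have h3 : a * (r * wt ε S) + b * (r * wt ε S) = r * wt ε S := by rw [← add_mul, hab, one_mul]
  linarith

lemma PP_compact (hd : 1 ≤ d) {ε r : ℝ} (hε : 0 ≤ ε) (hr : 0 ≤ r) : IsCompact (PP d ε r) := by
  rw [Metric.isCompact_iff_isClosed_bounded]
  refine ⟨PP_closed ε r, ?_⟩
  refine (Metric.isBounded_closedBall (x := (0 : Fin d → ℝ)) (r := 2 * r)).subset ?_
  intro x hx
  rw [mem_closedBall_zero_iff]
  exact norm_le_of_mem_PP hd hε hr hx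

lemma small_mem_PP {ε : ℝ} (hε0 : 0 ≤ ε) (hε : ε ≤ 1 / 4) {x : Fin d → ℝ} (hx : ‖x‖ ≤ 1 / 4) :
    x ∈ PP d ε 1 := by
  intro S hS
  have h1 := phi_le_norm S x
  have h2 := wt_ge hε0 S
  have h3 := cc_nonneg S
  have h4 : 2 * ‖x‖ * cc S ≤ 2 * (1 / 4) * cc S := by gcongr
  nlinarith

lemma finite_lattice {B : Matrix (Fin d) (Fin d) ℝ} (hB : B.det ≠ 0) (R : ℝ) :
    {z : Fin d → ℤ | ‖B *ᵥ cast z‖ ≤ R}.Finite := by
  have hBu : IsUnit B.det := isUnit_iff_ne_zero.2 hB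
  set C : ℝ := ‖(Matrix.toLin' B⁻¹).toContinuousLinearMap‖ with hC
  have hC0 : 0 ≤ C := norm_nonneg _
  refine (Set.finite_Icc (fun _ : Fin d => -⌈C * R⌉) (fun _ => ⌈C * R⌉)).subset ?_
  intro z hz
  have hz' : ‖B *ᵥ cast z‖ ≤ R := hz
  have h2 := (Matrix.toLin' B⁻¹).toContinuousLinearMap.le_opNorm (B *ᵥ cast z)
  have h3 : (Matrix.toLin' B⁻¹).toContinuousLinearMap (B *ᵥ cast z) = cast z := by
    show (Matrix.toLin' B⁻¹) (B *ᵥ cast z) = cast z
    rw [Matrix.toLin'_apply, Matrix.mulVec_mulVec, Matrix.nonsing_inv_mul _ hBu,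
      Matrix.one_mulVec]
  rw [h3] at h2
  have h4 : ‖cast z‖ ≤ C * R := h2.trans (mul_le_mul_of_nonneg_left hz' hC0)
  have h5 : ∀ i, |(z i : ℝ)| ≤ (⌈C * R⌉ : ℝ) := by
    intro i
    have := norm_le_pi_norm (cast z) i
    rw [Real.norm_eq_abs, cast_apply] at this
    exact (this.trans h4).trans (Int.le_ceil _)
  rw [Set.mem_Icc]
  constructor
  · intro i
    have := (abs_le.1 (h5 i)).1
    exact_mod_cast this
  · intro i
    have := (abs_le.1 (h5 i)).2
    exact_mod_cast this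

end Pool.Agent.H617R3
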